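import Pool.Agent.MP_3b3b41_nt.Gen

-- part MP_3b3b41_nt.Patch
section

/-! Turning a function with derivatives in `B` into a unimodular one. -/

open Finset Filter Topology
open scoped BigOperators ComplexConjugate InnerProductSpace

set_option linter.unusedSectionVars false
set_option linter.unusedSimpArgs false
set_option linter.unusedVariables false

noncomputable section

namespace Pool.Agent.MP_3b3b41_nt

variable {A : ℕ → Type} [∀ n, AddCommGroup (A n)] [∀ n, Fintype (A n)]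
  {B : StarSubalgebra ℂ (L A)} {e : L A}

/-- The module generated by the shifts of `e`. -/
def Md (B : StarSubalgebra ℂ (L A)) (e : L A) : Submodule ℂ (L A) where
  carrier := {v | ∀ k, v * star (sh k e) ∈ B}
  add_mem' ha hb k := by rw [add_mul]; exact add_mem (ha k) (hb k)
  zero_mem' k := by rw [zero_mul]; exact zero_mem _
  smul_mem' c v hv k := by rw [smul_mul_assoc]; exact B.smul_mem (hv k) c

theorem Md_closed (hB : SI B) : IsClosed (Md B e : Set (L A)) := by
  have : (Md B e : Set (L A)) = ⋂ k, (fun v => v * star (sh k e)) ⁻¹' B := by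
    ext v; simp [Md]
  rw [this]
  exact isClosed_iInter fun k => hB.closed.preimage (continuous_mul_const _)

theorem Md_sh (hB : SI B) {v : L A} (hv : v ∈ Md B e) (h : ∀ n, A n) : sh h v ∈ Md B e := fun k => by
  convert hB.shift h _ (hv (k - h)) using 1
  ext; simp

theorem Md_self (he : ∀ h, dl h e ∈ B) : e ∈ Md B e := he

theorem Md_mul {v b : L A} (hb : b ∈ B) (hv : v ∈ Md B e) : b * v ∈ Md B e := fun k => by
  rw [mul_assoc]; exact mul_mem hb (hv k)

theorem Md_pair (hB : SI B) (h0 : ‖e‖ ≠ 0) {v w : L A} (hv : v ∈ Md B e) (hw : w ∈ Md B e) :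
    v * star w ∈ B := by
  refine mem_of_cst hB.closed (tendsto_inner e e) (fun h => h0 (norm_eq_zero_of_inner h)) (f := avg
    (comap (fun n (p : P2 A A n) => p.1) (v * star w) *
      comap (fun n (p : P2 A A n) => p.1 + p.2) (star e * e))) ?_ (avg_mem hB.closed fun h => ?_)
  · refine Eventually.of_forall fun n x => ?_
    simp only [avg_apply, L.mul_apply, comap_apply, L.star_apply, ← mul_expect]
    rw [expect_shift' (fun y => conj (e n y) * e n y)]
  · convert mul_mem (hv h) (star_mem (hw h)) using 1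
    ext; simp; ring

theorem sq_le_one_sub {f v : L A} (h : ∀ n x, ‖f n x‖ ^ 2 ≤ 1 - ‖v n x‖ ^ 2) :
    ‖f‖ ^ 2 ≤ 1 - ‖v‖ ^ 2 := by
  refine sq_le_of ((tendsto_sq v).const_sub 1) (Eventually.of_forall fun n => ?_)
  refine (expect_le_expect fun x _ => h n x).trans_eq ?_
  rw [expect_sub_distrib, Fintype.expect_const]

theorem one_sub_le_sq {f v : L A} (h : ∀ n x, 1 - ‖v n x‖ ^ 2 ≤ ‖f n x‖ ^ 2) :
    1 - ‖v‖ ^ 2 ≤ ‖f‖ ^ 2 := by
  refine le_of_tendsto_of_tendsto' ((tendsto_sq v).const_sub 1) (tendsto_sq f) fun n => ?_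
  refine le_trans (le_of_eq ?_) (expect_le_expect fun x _ => h n x)
  rw [expect_sub_distrib, Fintype.expect_const]

theorem exists_shift (d u : L A) : ∃ h, ‖d‖ ^ 2 * ‖u‖ ^ 2 ≤ ‖d * sh h u‖ ^ 2 := by
  have : ∀ n, ∃ h : A n, (𝔼 x, ‖d n x‖ ^ 2) * (𝔼 x, ‖u n x‖ ^ 2) ≤
      𝔼 x, ‖d n x * u n (x + h)‖ ^ 2 := fun n => by
    obtain ⟨h, -, hh⟩ := exists_le_of_le_expect univ_nonempty
      (le_refl (𝔼 h : A n, 𝔼 x, ‖d n x * u n (x + h)‖ ^ 2))
    refine ⟨h, le_trans (le_of_eq ?_) hh⟩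
    rw [expect_comm]
    simp only [norm_mul, mul_pow, ← mul_expect, expect_shift' (fun y => ‖u n y‖ ^ 2), ← expect_mul]
  choose h hh using this
  exact ⟨h, le_of_tendsto_of_tendsto' ((tendsto_sq d).mul (tendsto_sq u)) (tendsto_sq _) hh⟩

theorem improve (hB : SI B) (h0 : ‖e‖ ≠ 0) {u : L A} (hu : u ∈ Md B e) (hu1 : ∀ n x, ‖u n x‖ ≤ 1)
    {v : L A} (hv : v ∈ Md B e) (hv1 : ∀ n x, ‖v n x‖ ≤ 1) :
    ∃ w ∈ Md B e, (∀ n x, ‖w n x‖ ≤ 1) ∧ ‖w - v‖ ^ 2 ≤ 1 - ‖v‖ ^ 2 ∧
      1 - ‖w‖ ^ 2 ≤ (1 - ‖u‖ ^ 2 / 8) * (1 - ‖v‖ ^ 2) := by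
  set d := 1 - v * star v with hd
  have hdB : d ∈ B := sub_mem (one_mem _) (Md_pair hB h0 hv hv)
  have hdv : ∀ n x, d n x = ((1 - ‖v n x‖ ^ 2 : ℝ) : ℂ) := fun n x => by
    simp [hd, Complex.mul_conj']
  have hs : ∀ n x, 0 ≤ 1 - ‖v n x‖ ^ 2 := fun n x => by
    nlinarith [hv1 n x, norm_nonneg (v n x)]
  have hdn : ∀ n x, ‖d n x‖ = 1 - ‖v n x‖ ^ 2 := fun n x => by
    rw [hdv, Complex.norm_real, Real.norm_of_nonneg (hs n x)]
  have hu2 : ‖u‖ ≤ 1 := norm_le_of_bound zero_le_one (Eventually.of_forall hu1)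
  have hv2 : ‖v‖ ≤ 1 := norm_le_of_bound zero_le_one (Eventually.of_forall hv1)
  have hu3 : ‖u‖ ^ 2 ≤ 1 := by nlinarith [norm_nonneg u]
  have hv3 : ‖v‖ ^ 2 ≤ 1 := by nlinarith [norm_nonneg v]
  rcases le_total (‖d‖ ^ 2) ((1 - ‖v‖ ^ 2) / 2) with h | h
  · have hw : ∀ n x, ‖(v + (2 : ℂ)⁻¹ • (d * v)) n x‖ = (1 + (1 - ‖v n x‖ ^ 2) / 2) * ‖v n x‖ :=
      fun n x => by
        have : (v + (2 : ℂ)⁻¹ • (d * v)) n x = ((1 + (1 - ‖v n x‖ ^ 2) / 2 : ℝ) : ℂ) * v n x := by
          simp [hdv]; ring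
        rw [this, norm_mul, Complex.norm_real, Real.norm_of_nonneg (by linarith [hs n x])]
    refine ⟨v + (2 : ℂ)⁻¹ • (d * v), add_mem hv (Submodule.smul_mem _ _ (Md_mul hdB hv)),
      fun n x => ?_, sq_le_one_sub fun n x => ?_, ?_⟩
    · rw [hw]
      nlinarith [mul_nonneg (sq_nonneg (‖v n x‖ - 1)) (add_nonneg (norm_nonneg (v n x)) zero_le_two)]
    · simp only [add_sub_cancel_left, L.smul_apply, L.mul_apply, norm_mul, hdn, norm_inv,
        Complex.norm_ofNat]
      have h1 := hs n x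
      have h2 : ‖v n x‖ ^ 2 ≤ 1 := by linarith
      have h3 : (1 - ‖v n x‖ ^ 2) * ‖v n x‖ ^ 2 ≤ 1 := by nlinarith [sq_nonneg ‖v n x‖]
      nlinarith [mul_le_mul_of_nonneg_left h3 h1]
    · have := one_sub_le_sq (f := v + (2 : ℂ)⁻¹ • (d * v)) (v := d) fun n x => by
        rw [hw, hdn]
        nlinarith [mul_nonneg (sq_nonneg (1 - ‖v n x‖ ^ 2)) (sq_nonneg ‖v n x‖)]
      nlinarith
  · obtain ⟨k, hk⟩ := exists_shift d u
    set z := (2 : ℂ)⁻¹ • (d * sh k u) with hz
    have hzM : z ∈ Md B e := Submodule.smul_mem _ _ (Md_mul hdB (Md_sh hB hu k))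
    have hz1 : ∀ n x, ‖z n x‖ ≤ (1 - ‖v n x‖ ^ 2) / 2 := fun n x => by
      simp only [hz, L.smul_apply, L.mul_apply, norm_mul, hdn, norm_inv, Complex.norm_ofNat,
        sh_apply]
      nlinarith [mul_le_mul_of_nonneg_left (hu1 n (x + k n)) (hs n x)]
    have hz2 : ‖z‖ ^ 2 ≤ 1 - ‖v‖ ^ 2 := sq_le_one_sub fun n x => by
      nlinarith [hz1 n x, hs n x, norm_nonneg (z n x), sq_nonneg ‖v n x‖]
    have hz3 : ‖z‖ ^ 2 = ‖d * sh k u‖ ^ 2 / 4 := by
      rw [hz, norm_smul, norm_inv, Complex.norm_ofNat]; ring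
    have hz4 : ‖u‖ ^ 2 / 8 * (1 - ‖v‖ ^ 2) ≤ ‖z‖ ^ 2 := by
      nlinarith [mul_le_mul_of_nonneg_right h (sq_nonneg ‖u‖)]
    have hb : ∀ n x, ‖v n x‖ + ‖z n x‖ ≤ 1 := fun n x => by
      nlinarith [hz1 n x, sq_nonneg (1 - ‖v n x‖)]
    have hp := parallelogram_law_with_norm ℂ v z
    rcases le_total ‖v - z‖ ‖v + z‖ with h1 | h1
    · refine ⟨v + z, add_mem hv hzM, fun n x => (norm_add_le _ _).trans (hb n x), by simpa, ?_⟩
      nlinarith [mul_self_le_mul_self (norm_nonneg _) h1]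
    · refine ⟨v - z, sub_mem hv hzM, fun n x => (norm_sub_le _ _).trans (hb n x), by simpa, ?_⟩
      nlinarith [mul_self_le_mul_self (norm_nonneg _) h1]

theorem patch (hB : SI B) (he : ∀ h, dl h e ∈ B) (h0 : ‖e‖ ≠ 0) :
    ∃ χ ∈ unitary (L A), (∀ h, dl h χ ∈ B) ∧ e * star χ ∈ B := by
  classical
  obtain ⟨C, hC0, hC⟩ := e.bound
  set u := (C : ℂ)⁻¹ • e with hu
  have huM : u ∈ Md B e := Submodule.smul_mem _ _ (Md_self he)
  have hu1 : ∀ n x, ‖u n x‖ ≤ 1 := fun n x => by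
    rw [hu, L.smul_apply, norm_mul, norm_inv, Complex.norm_real, Real.norm_of_nonneg hC0.le,
      inv_mul_le_iff₀ hC0, mul_one]
    exact hC n x
  have hu0 : 0 < ‖u‖ := by
    rw [hu, norm_smul, norm_inv, Complex.norm_real, Real.norm_of_nonneg hC0.le]
    positivity
  have hu2 : ‖u‖ ≤ 1 := norm_le_of_bound zero_le_one (Eventually.of_forall hu1)
  set θ := 1 - ‖u‖ ^ 2 / 8 with hθ
  have hθ0 : 0 ≤ θ := by nlinarith
  have hθ1 : θ < 1 := by nlinarith
  let T := {v : L A // v ∈ Md B e ∧ ∀ n x, ‖v n x‖ ≤ 1}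
  have step : ∀ v : T, ∃ w : T, ‖w.1 - v.1‖ ^ 2 ≤ 1 - ‖v.1‖ ^ 2 ∧
      1 - ‖w.1‖ ^ 2 ≤ θ * (1 - ‖v.1‖ ^ 2) := fun v => by
    obtain ⟨w, h1, h2, h3⟩ := improve hB h0 huM hu1 v.2.1 v.2.2
    exact ⟨⟨w, h1, h2⟩, h3⟩
  choose F hF1 hF2 using step
  let v : ℕ → T := fun m => F^[m] ⟨0, zero_mem _, fun n x => by simp⟩
  have hv : ∀ m, v (m + 1) = F (v m) := fun m => Function.iterate_succ_apply' _ _ _
  have hδ : ∀ m, 1 - ‖(v m).1‖ ^ 2 ≤ θ ^ m := fun m => by
    induction m with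
    | zero => simp
    | succ m ih =>
      rw [hv, pow_succ' θ]
      exact (hF2 _).trans (mul_le_mul_of_nonneg_left ih hθ0)
  have hc : CauchySeq fun m => (v m).1 := by
    refine cauchySeq_of_le_geometric √θ 1 (by rwa [Real.sqrt_lt' one_pos, one_pow]) fun m => ?_
    rw [dist_comm, dist_eq_norm, hv, one_mul]
    refine le_of_sq (by positivity) (((hF1 _).trans (hδ m)).trans_eq ?_)
    rw [← pow_mul, mul_comm, pow_mul, Real.sq_sqrt hθ0]
  obtain ⟨w, hw1, hw⟩ := complete _ hc zero_le_one fun m => Eventually.of_forall (v m).2.2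
  have hwM : w ∈ Md B e := (Md_closed hB).mem_of_tendsto hw (Eventually.of_forall fun m => (v m).2.1)
  have hw2 : 1 - ‖w‖ ^ 2 ≤ 0 := le_of_tendsto_of_tendsto' ((hw.norm.pow 2).const_sub 1)
    (tendsto_pow_atTop_nhds_zero_of_lt_one hθ0 hθ1) hδ
  have hχ1 : ∀ z : ℂ, ‖(if z = 0 then 1 else z / (‖z‖ : ℝ) : ℂ)‖ = 1 := fun z => by
    split_ifs with h
    · simp
    · simp [h]
  let χ : L A := L.mk (fun n x => if w n x = 0 then 1 else w n x / (‖w n x‖ : ℝ)) 1
    fun n x => (hχ1 _).le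
  have hχM : χ ∈ Md B e := by
    refine mem_of_null (Md_closed hB) hwM (pow_eq_zero_iff two_ne_zero |>.1 (le_antisymm
      ((sq_le_one_sub (v := w) fun n x => ?_).trans hw2) (by positivity)))
    have h1 := hw1 n x
    simp only [χ, L.sub_apply, L.mk_apply]
    split_ifs with h
    · simp [h]
    · have h2 : 0 < ‖w n x‖ := norm_pos_iff.2 h
      have : w n x - w n x / (‖w n x‖ : ℝ) = ((‖w n x‖ - 1 : ℝ) : ℂ) * (w n x / (‖w n x‖ : ℝ)) := by
        have : ((‖w n x‖ : ℝ) : ℂ) ≠ 0 := by exact_mod_cast h2.ne'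
        push_cast; field_simp
      rw [this, norm_mul, norm_div, Complex.norm_real, Complex.norm_real, norm_norm,
        div_self h2.ne', mul_one, Real.norm_eq_abs, sq_abs]
      nlinarith
  refine ⟨χ, Unitary.mem_iff_star_mul_self.2 (L.ext fun n x => ?_),
    fun h => Md_pair hB h0 hχM (Md_sh hB hχM h), Md_pair hB h0 (Md_self he) hχM⟩
  rw [L.mul_apply, L.star_apply, Complex.conj_mul', L.mk_apply, hχ1]
  simp

end Pool.Agent.MP_3b3b41_nt

end
end

-- part MP_3b3b41_nt.Inv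
section

/-! The inverse theorem in the limit. -/

open Finset Filter Topology
open scoped BigOperators ComplexConjugate InnerProductSpace

set_option linter.unusedSectionVars false
set_option linter.unusedSimpArgs false
set_option linter.unusedVariables false

noncomputable section

namespace Pool.Agent.MP_3b3b41_nt

section Finite

variable {H : Type*} [AddCommGroup H] [Fintype H] {t : ℕ}

/-- Product over the nonzero vertices of a cube. -/
def rest (f : H → ℂ) (x : H) (h : Fin t → H) : ℂ :=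
  ∏ ω ∈ univ.erase (fun _ => false), cj ω (f (vtx x h ω))

theorem cube_eq (f : H → ℂ) (x : H) (h : Fin t → H) : cube f x h = f x * rest f x h := by
  rw [cube, ← mul_prod_erase _ _ (mem_univ fun _ => false), cj_zero, vtx_zero, rest]

theorem Df_comm (a b : H) (u : H → ℂ) : Df a (Df b u) = Df b (Df a u) := by
  ext x; simp only [Df, map_mul, add_right_comm x a b]; ring

/-- A trilinear form on cubes. -/
def Lf (t : ℕ) (u a b c : H → ℂ) : ℂ :=
  𝔼 x, 𝔼 k, 𝔼 l, 𝔼 h : Fin t → H, a x * conj (b (x + k)) *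
    (conj (c (x + l)) * u (x + k + l) * rest (Df l (Df k u)) x h)

theorem Lf_comm (u a b c : H → ℂ) : Lf t u a b c = Lf t u a c b := by
  refine expect_congr rfl fun x _ => ?_
  rw [expect_comm]
  refine expect_congr rfl fun k _ => expect_congr rfl fun l _ => expect_congr rfl fun h _ => ?_
  rw [Df_comm, add_right_comm]; ring

theorem Lf_self (u : H → ℂ) : Lf t u u u u = Nf (t + 2) u := by
  simp only [Nf_succ]
  simp only [Nf, expect_prod', cube_eq, Lf]
  rw [expect_comm]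
  refine expect_congr rfl fun k _ => ?_
  rw [expect_comm]
  refine expect_congr rfl fun l _ => expect_congr rfl fun x _ => expect_congr rfl fun h _ => ?_
  simp only [Df, map_mul, Complex.conj_conj, add_right_comm x l k]; ring

theorem vtx_inv {ω : Fin t → Bool} {j : Fin t} (hj : ω j = true) (x y : H) (h : Fin t → H) :
    vtx (x + y) (h + -Pi.single j y) ω = vtx x h ω := by
  rw [vtx_add', vtx_single, if_pos hj, add_zero]

theorem tail_single (j : Fin t) (y : H) (h : Fin (t + 1) → H) :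
    Fin.tail (h + -Pi.single j.succ y) = Fin.tail h + -Pi.single j y := by
  ext r; simp [Fin.tail, Pi.single_apply]

end Finite

@[simp] theorem cj_apply {X : ℕ → Type} {t : ℕ} (ω : Fin t → Bool) (f : L X) (n x) :
    cj ω f n x = cj ω (f n x) := by
  unfold cj; split_ifs <;> rfl

variable {A : ℕ → Type} [∀ n, AddCommGroup (A n)] [∀ n, Fintype (A n)] {t : ℕ}

/-- Second derivative as a function of three variables. -/
def D2 (u : L A) : L (P2 A (P2 A A)) :=
  comap (fun n p => p.1) u * star (comap (fun n p => p.1 + p.2.2) u) *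
    star (comap (fun n p => p.1 + p.2.1) u * star (comap (fun n p => p.1 + p.2.1 + p.2.2) u))

@[simp] theorem D2_apply (u : L A) (n p) : D2 u n p = Df p.2.1 (Df p.2.2 (u n)) p.1 := rfl

/-- The cube with one edge removed. -/
def Ph (t : ℕ) (u c : L A) : L (P2 (P2 A A) (Pw (Fin (t + 1)) A)) :=
  star (comap (fun n p => p.1.1 + p.2 0) c) * comap (fun n p => p.1.2 + p.2 0) u *
    ∏ ω ∈ univ.erase (fun _ => false),
      cj ω (comap (fun n p => (vtx p.1.1 (Fin.tail p.2) ω, (p.2 0, p.1.2 - p.1.1))) (D2 u))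

theorem tendsto_Lam (u a b c : L A) : Tendsto (fun n => conj (Lf t (u n) (a n) (b n) (c n)))
    (U : Filter ℕ) (𝓝 ⟪ten a b, star (avg (Ph t u c))⟫_ℂ) := by
  refine (tendsto_inner _ _).congr fun n => ?_
  simp only [L.star_apply, ← map_mul, ← conj_expect]
  congr 1
  rw [expect_diag, expect_comm]
  refine expect_congr rfl fun x _ => expect_congr rfl fun k _ => ?_
  simp only [avg_apply, expect_cons, mul_expect, Ph, L.mul_apply, L.star_apply, comap_apply,
    L.prod_apply, cj_apply, D2_apply, Fin.cons_zero, Fin.tail_cons, add_sub_cancel_left, ten_apply]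
  rfl

theorem mem_G_of (hinv : ∀ w : L A, (∀ b ∈ G A t, ⟪w, b⟫_ℂ = 0) → Nz t w) {D : L A}
    (h : ∀ w, Nz t w → E (w * D) = 0) : D ∈ G A t := by
  rw [← star_star D]
  refine star_mem (mem_of_orth (csp_closed _) fun w hw => ?_)
  rw [inner_def, ← star_mul', E_star, h w (hinv w hw), map_zero]

theorem Ph_mem (hinv : ∀ w : L A, (∀ b ∈ G A t, ⟪w, b⟫_ℂ = 0) → Nz t w) (u c : L A) :
    avg (Ph t u c) ∈ K0 (G A t) := by
  refine mem_K0.2 fun k => mem_G_of hinv fun w hw => ?_
  rw [← gvnL (Z := P2 A (Pw (Fin (t + 1)) A)) (fun n => AddMonoidHom.fst _ _)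
    (σ := fun j n y => (y, -Pi.single j y)) (Eventually.of_forall fun n j y => rfl) hw
    (F := comap (fun n p => ((p.1, p.1 + k n), p.2)) (Ph t u c)) ?_]
  · exact E_congr (Eventually.of_forall fun n => by simp [expect_prod', mul_expect])
  rw [Ph, map_mul, map_prod]
  refine Inv.mul (Inv.single 0 fun n z y => ?_) (Inv.prod fun ω hω => ?_)
  · have e1 : z.1 + y + (z.2 0 + -y) = z.1 + z.2 0 := by abel
    have e2 : z.1 + y + k n + (z.2 0 + -y) = z.1 + k n + z.2 0 := by abel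
    simp [e1, e2]
  · obtain ⟨j, hj⟩ := exists_true (ne_of_mem_erase hω)
    refine Inv.single j.succ fun n z y => ?_
    simp only [comap_apply, cj_apply, D2_apply, Prod.fst_add, Prod.snd_add, tail_single,
      vtx_inv hj, add_sub_cancel_left]
    simp [Pi.single_eq_of_ne (Fin.succ_ne_zero j).symm]

variable {B : StarSubalgebra ℂ (L A)}

theorem kc_K0 (hB : SI B) {a b : L (P2 A A)} (ha : a ∈ K0 B) (hb : b ∈ K0 B) (h : ∀ n, A n) :
    dsl h (kc a b) ∈ B := by
  have : dsl h (kc a b) = avg (comap (fun n (p : P2 A A n) => (p.1, p.1 + p.2)) a *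
      comap (fun n (p : P2 A A n) => (p.1 + p.2, p.1 + h n)) b) := by
    ext n x
    simp only [dsl_apply, kc_apply, avg_apply, L.mul_apply, comap_apply]
    exact (expect_shift' (fun y => a n (x, y) * b n (y, x + h n)) x).symm
  rw [this]
  refine avg_mem hB.closed fun k => ?_
  convert mul_mem (mem_K0.1 ha k) (hB.shift k _ (mem_K0.1 hb (h - k))) using 1
  ext; simp

theorem cont_kc_left (h : ∀ n, A n) (b : L (P2 A A)) : Continuous fun a => dsl h (kc a b) := by
  obtain ⟨C, h0, hC⟩ := b.bound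
  refine AddMonoidHomClass.continuous_of_bound (AddMonoidHom.mk' (fun a => dsl h (kc a b))
    fun _ _ => by rw [add_kc, map_add]) C fun a => le_of_sq (by positivity) ?_
  rw [mul_pow]
  refine sq_le_of ((tendsto_sq a).const_mul _) (Eventually.of_forall fun n => ?_)
  rw [expect_prod', mul_expect]
  refine expect_le_expect fun x _ => (norm_expect_mul_sq_le _ _).trans ?_
  rw [mul_comm]
  exact mul_le_mul_of_nonneg_right (expect_le univ_nonempty fun _ _ =>
    pow_le_pow_left₀ (norm_nonneg _) (hC n _) 2) (expect_nonneg fun _ _ => by positivity)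

theorem cont_kc_right (h : ∀ n, A n) (a : L (P2 A A)) : Continuous fun b => dsl h (kc a b) := by
  obtain ⟨C, h0, hC⟩ := a.bound
  refine AddMonoidHomClass.continuous_of_bound (AddMonoidHom.mk' (fun b => dsl h (kc a b))
    fun _ _ => by rw [kc_add, map_add]) C fun b => le_of_sq (by positivity) ?_
  rw [mul_pow]
  refine sq_le_of ((tendsto_sq b).const_mul _) (Eventually.of_forall fun n => ?_)
  rw [expect_prod', expect_comm, ← expect_shift (fun x => 𝔼 y, ‖b n (y, x)‖ ^ 2) (h n), mul_expect]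
  refine expect_le_expect fun x _ => (norm_expect_mul_sq_le _ _).trans ?_
  exact mul_le_mul_of_nonneg_right (expect_le univ_nonempty fun _ _ =>
    pow_le_pow_left₀ (norm_nonneg _) (hC n _) 2) (expect_nonneg fun _ _ => by positivity)

theorem kc_cl (hB : SI B) {a b : L (P2 A A)} (ha : a ∈ (K0 B).topologicalClosure)
    (hb : b ∈ (K0 B).topologicalClosure) : kc a b ∈ K0 B := mem_K0.2 fun h =>
  closure_minimal (t := (fun a => dsl h (kc a b)) ⁻¹' B)
    (fun a ha => closure_minimal (t := (fun b => dsl h (kc a b)) ⁻¹' B)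
      (fun b hb => kc_K0 hB ha hb h) (hB.closed.preimage (cont_kc_right h a)) hb)
    (hB.closed.preimage (cont_kc_left h b)) ha

theorem ka_cl (hB : SI B) {a : L (P2 A A)} (ha : a ∈ (K0 B).topologicalClosure) :
    ka a ∈ (K0 B).topologicalClosure := by
  have hc : Continuous (ka (X := A)) := continuous_star.comp
    (MP_equiv fun n => Equiv.prodComm (A n) (A n)).continuous
  refine map_mem_closure hc ha fun b hb => mem_K0.2 fun h => ?_
  convert star_mem (hB.shift h _ (mem_K0.1 hb (-h))) using 1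
  ext; simp

theorem orth_cl {X : ℕ → Type} [∀ n, Fintype (X n)] [∀ n, Nonempty (X n)] {S : Set (L X)} {w f : L X}
    (h : ∀ g ∈ S, ⟪w, g⟫_ℂ = 0) (hf : f ∈ closure S) : ⟪w, f⟫_ℂ = 0 :=
  closure_minimal (t := {g | ⟪w, g⟫_ℂ = 0}) h
    (isClosed_eq (innerSL ℂ w).continuous continuous_const) hf

theorem inv_succ (hinv : ∀ w : L A, (∀ b ∈ G A t, ⟪w, b⟫_ℂ = 0) → Nz t w) (g : L A)
    (hg : ∀ b ∈ G A (t + 1), ⟪g, b⟫_ℂ = 0) : Nz (t + 1) g := by
  by_contra hN
  have hB := G_SI (A := A) t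
  set K := (K0 (G A t)).topologicalClosure with hK
  have hKc : IsClosed (K : Set (L (P2 A A))) := isClosed_closure
  have hPh : ∀ u c : L A, star (avg (Ph t u c)) ∈ K := fun u c =>
    star_mem (subset_closure (Ph_mem hinv u c))
  have hNz : ∀ u : L A, ⟪ten u u, star (avg (Ph t u u))⟫_ℂ = 0 → Nz (t + 1) u := fun u hu => by
    have := (Complex.continuous_re.tendsto _).comp (tendsto_Lam (t := t) u u u u)
    rw [hu] at this
    exact this.congr fun n => by simp [Lf_self, Mf]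
  have hsym : ∀ u a b c : L A, ⟪ten a b, star (avg (Ph t u c))⟫_ℂ =
      ⟪ten a c, star (avg (Ph t u b))⟫_ℂ := fun u a b c =>
    tendsto_nhds_unique (tendsto_Lam u a b c)
      ((tendsto_Lam u a c b).congr fun n => by rw [Lf_comm])
  have hHS := hs_of hKc (fun a ha b hb => subset_closure (kc_cl hB ha hb)) fun a ha => ka_cl hB ha
  obtain ⟨R₀, hR₀, hR₀o⟩ := exists_proj hKc (ten g g)
  set W := vec g * star (vec g) with hW
  set R := (2 : ℂ)⁻¹ • (q R₀ + star (q R₀)) with hR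
  have hRK : R ∈ (Subalgebra.toSubmodule K.toSubalgebra).map q :=
    Submodule.smul_mem _ _ (add_mem ⟨R₀, hR₀, rfl⟩ (hHS.star_mem _ ⟨R₀, hR₀, rfl⟩))
  have hRs : star R = R := by simp [hR, star_smul, add_comm]
  have hRo : ∀ Z ∈ (Subalgebra.toSubmodule K.toSubalgebra).map q, ⟪W, Z⟫_ℂ = ⟪R, Z⟫_ℂ := by
    have h1 : ∀ Z ∈ (Subalgebra.toSubmodule K.toSubalgebra).map q, ⟪W, Z⟫_ℂ = ⟪q R₀, Z⟫_ℂ := by
      rintro _ ⟨Z, hZ, rfl⟩
      rw [hW, ← q_ten, inner_q, inner_q, ← sub_eq_zero, ← inner_sub_left, hR₀o Z hZ]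
    intro Z hZ
    have h2 : ⟪W, Z⟫_ℂ = ⟪star (q R₀), Z⟫_ℂ := by
      have := h1 _ (hHS.star_mem _ hZ)
      rw [← hq_inner_star, ← hq_inner_star (star Z), star_star, hW, star_mul, star_star] at this
      rw [← inner_conj_symm, this, inner_conj_symm]
    rw [hR, inner_smul_left, inner_add_left, ← h1 Z hZ, ← h2]
    simp only [map_inv₀, map_ofNat]; ring
  have hRR : R * R ≠ 0 := fun h => hN (hNz g (by
    have h1 : R * vec g = 0 := by
      rw [← inner_self_eq_zero (𝕜 := ℂ), hq_left, hRs, ← mul_assoc, h, zero_mul, inner_zero_right]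
    have h2 : R = 0 := by
      rw [← inner_self_eq_zero (𝕜 := ℂ), ← hRo R hRK, hW, hq_right, star_star, h1,
        inner_zero_right]
    rw [← inner_q, q_ten, hRo _ ⟨_, hPh g g, rfl⟩, h2, inner_zero_left]))
  obtain ⟨_, ⟨P, hP, rfl⟩, hPs, hPP, hP0, ⟨μ, hμ, hRP⟩, hmin⟩ := hHS.exists_min hRK hRs hRR
  have key : ∀ Z ∈ K, ∃ κ : ℂ, ∀ u v : L A, q P * vec u = vec u → q P * vec v = vec v →
      ⟪ten u v, Z⟫_ℂ = κ * ⟪u, v⟫_ℂ := fun Z hZ => by
    obtain ⟨c, hc⟩ := hmin _ ⟨Z, hZ, rfl⟩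
    refine ⟨c, fun u v hu hv => ?_⟩
    rw [← inner_q, q_ten, hq_right, star_star, ← hu, hq_left, hPs, ← hv, ← mul_assoc, ← mul_assoc,
      hc, smul_mul_assoc, hv, inner_smul_right, inner_vec]
  set e := app P g with he
  have heP : q P * vec e = vec e := by rw [he, vec_app, ← mul_assoc, hPP]
  have hge : ⟪g, e⟫_ℂ ≠ 0 := by
    rw [← inner_vec, he, vec_app, ← star_star (vec g), ← hq_right, star_star, ← hW,
      hRo _ ⟨P, hP, rfl⟩, ← hPP, ← inner_conj_symm, hq_right, hPs, hRP, inner_smul_right, map_ne_zero]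
    exact mul_ne_zero hμ (inner_self_ne_zero.2 hP0)
  have he0 : ‖e‖ ≠ 0 := fun h => hge (inner_of_null_right g h)
  have hee : ⟪e, e⟫_ℂ ≠ 0 := fun h => he0 (norm_eq_zero_of_inner h)
  have rank : ∀ v : L A, q P * vec v = vec v → ⟪e, v⟫_ℂ = 0 → vec v = 0 := by
    intro v hv hev
    by_contra hv0
    have hv1 : ‖v‖ ≠ 0 := by rwa [← norm_vec, norm_ne_zero_iff]
    set v' := ((‖e‖ / ‖v‖ : ℝ) : ℂ) • v with hv'
    have h1 : q P * vec v' = vec v' := by rw [hv', vec_smul, mul_smul_comm, hv]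
    have h2 : ⟪v', e⟫_ℂ = 0 := by
      rw [← inner_conj_symm, hv', inner_smul_right, hev, mul_zero, map_zero]
    have h3 : ⟪v', v'⟫_ℂ = ⟪e, e⟫_ℂ := by
      rw [inner_self_eq_norm_sq_to_K, inner_self_eq_norm_sq_to_K, hv', norm_smul,
        Complex.norm_real, Real.norm_of_nonneg (by positivity), div_mul_cancel₀ _ hv1]
    obtain ⟨κ, hκ⟩ := key _ (hPh e e)
    obtain ⟨κ', hκ'⟩ := key _ (hPh e v')
    have h4 : Nz (t + 1) e := hNz e (by
      rw [hκ e e heP heP, ← h3, ← hκ v' v' h1 h1, hsym, hκ' v' e h1 heP, h2, mul_zero])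
    have h5 := orth_cl (fun Z hZ => orth_K0 (easy t) h4 hZ) hP
    rw [← inner_q, q_ten, hq_right, star_star, heP, inner_vec] at h5
    exact hee h5
  have hD : ∀ f, (q P - (⟪e, e⟫_ℂ)⁻¹ • q (ten e e)) * vec f = 0 := fun f => by
    have h1 : q (ten e e) * vec f = ⟪e, f⟫_ℂ • vec e := by
      rw [← vec_app, ← vec_smul, ← sub_eq_zero, ← vec_sub, ← norm_eq_zero, norm_vec]
      exact null_of_cst (tendsto_inner e f)
        (Eventually.of_forall fun n x => by simp [mul_expect, mul_assoc])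
    rw [sub_mul, smul_mul_assoc, h1, smul_smul, ← vec_app, ← vec_smul, ← vec_sub]
    refine rank _ (by rw [vec_sub, vec_smul, mul_sub, mul_smul_comm, heP, vec_app, ← mul_assoc, hPP]) ?_
    rw [inner_sub_right, inner_smul_right, ← inner_vec e (app P f), vec_app P f, ← hPs, ← hq_left, heP,
      inner_vec]
    field_simp
    ring
  have hten : ten e e ∈ K := by
    have h1 := mul_eq_zero_of_vec hD (q P)
    rw [sub_mul, hPP, smul_mul_assoc, q_ten, mul_assoc, ← hPs, ← star_mul, heP, hPs, ← q_ten,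
      sub_eq_zero, ← map_smul, q_eq] at h1
    have h2 := K.smul_mem (mem_of_null hKc hP h1) ⟪e, e⟫_ℂ
    rwa [smul_smul, mul_inv_cancel₀ hee, one_smul] at h2
  have hde : ∀ h, dl h e ∈ G A t := fun h =>
    mem_of_cst hB.closed (tendsto_inner e e) hee (Eventually.of_forall fun n x => by
      simp only [dsl_apply, kc_apply, ten_apply, dl_apply, mul_expect]
      exact expect_congr rfl fun _ _ => by ring) (mem_K0.1 (kc_cl hB hten hten) h)
  obtain ⟨χ, hχ, h1, h2⟩ := patch hB hde he0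
  refine hge (hg e ?_)
  have := mul_mem (G_mono (Nat.le_succ t) h2) (subset_csp (Γ := Gen A (t + 1)) ⟨hχ, h1⟩)
  rwa [mul_assoc, Unitary.star_mul_self_of_mem hχ, mul_one] at this

/-- The inverse theorem. -/
theorem inverse : ∀ (t : ℕ) (w : L A), (∀ b ∈ G A t, ⟪w, b⟫_ℂ = 0) → Nz t w
  | 0, w, hw => by
    have h1 := hw 1 (one_mem _)
    rw [← inner_conj_symm, ← E_eq_inner, map_eq_zero] at h1
    simpa only [Nz, Mf_zero, h1, norm_zero, ne_eq, OfNat.ofNat_ne_zero, not_false_eq_true,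
      zero_pow] using (tendsto_E w).norm.pow 2
  | t + 1, w, hw => inv_succ (inverse t) w hw

end Pool.Agent.MP_3b3b41_nt

end
end

-- part MP_3b3b41_nt.Cls
section

/-! Classes of characters, multilinearity and the dilation law. -/

open Finset Filter Topology
open scoped BigOperators ComplexConjugate InnerProductSpace

set_option linter.unusedSectionVars false
set_option linter.unusedSimpArgs false
set_option linter.unusedVariables false

noncomputable section

namespace Pool.Agent.MP_3b3b41_nt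

section Classes

variable {X Y : ℕ → Type} {t : ℕ}

theorem map_cj (φ : L X →⋆ₐ[ℂ] L Y) (ω : Fin t → Bool) (f : L X) : φ (cj ω f) = cj ω (φ f) := by
  unfold cj; split_ifs <;> simp [map_star]

theorem cj_mem {S : Type*} [SetLike S (L X)] [StarMemClass S (L X)] {B : S} (ω : Fin t → Bool)
    {f : L X} (hf : f ∈ B) : cj ω f ∈ B := by
  unfold cj; split_ifs
  exacts [hf, star_mem hf]

/-- Unimodular elements of `B`. -/
def NB (B : StarSubalgebra ℂ (L X)) : Subgroup (unitary (L X)) where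
  carrier := {u | u.1 ∈ B}
  mul_mem' {u v} ha hb := (mul_mem (show u.1 ∈ B from ha) (show v.1 ∈ B from hb) : u.1 * v.1 ∈ B)
  one_mem' := one_mem B
  inv_mem' {u} ha := (star_mem (show u.1 ∈ B from ha) : star u.1 ∈ B)

/-- Unimodular functions modulo those in `B`. -/
def Cl (B : StarSubalgebra ℂ (L X)) : Type := Additive (unitary (L X) ⧸ NB B)

instance (B : StarSubalgebra ℂ (L X)) : AddCommGroup (Cl B) :=
  inferInstanceAs (AddCommGroup (Additive (unitary (L X) ⧸ NB B)))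

/-- The class of a unimodular function. -/
def mkC (B : StarSubalgebra ℂ (L X)) (u : unitary (L X)) : Cl B :=
  Additive.ofMul (QuotientGroup.mk u : unitary (L X) ⧸ NB B)

open Classical in
/-- The class of a function. -/
def cls (B : StarSubalgebra ℂ (L X)) (f : L X) : Cl B :=
  if h : f ∈ unitary (L X) then mkC B ⟨f, h⟩ else 0

variable {B : StarSubalgebra ℂ (L X)}

theorem cls_mul {f g : L X} (hf : f ∈ unitary (L X)) (hg : g ∈ unitary (L X)) :
    cls B (f * g) = cls B f + cls B g := by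
  rw [cls, cls, cls, dif_pos hf, dif_pos hg, dif_pos (mul_mem hf hg)]; rfl

theorem cls_eq_zero {f : L X} (hf : f ∈ unitary (L X)) : cls B f = 0 ↔ f ∈ B := by
  rw [cls, dif_pos hf]
  exact QuotientGroup.eq_one_iff (N := NB B) ⟨f, hf⟩

theorem cls_star {f : L X} (hf : f ∈ unitary (L X)) : cls B (star f) = -cls B f := by
  rw [eq_neg_iff_add_eq_zero, ← cls_mul (Unitary.star_mem hf) hf, Unitary.star_mul_self_of_mem hf,
    cls_eq_zero (one_mem _)]
  exact one_mem _

theorem cls_prod {ι : Type*} (s : Finset ι) {f : ι → L X} (hf : ∀ i, f i ∈ unitary (L X)) :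
    cls B (∏ i ∈ s, f i) = ∑ i ∈ s, cls B (f i) := by
  classical
  induction s using Finset.induction_on with
  | empty => simpa using (cls_eq_zero (one_mem _)).2 (one_mem B)
  | insert a s ha ih =>
    rw [prod_insert ha, sum_insert ha, cls_mul (hf a) (prod_mem fun i _ => hf i), ih]

theorem cls_pow {f : L X} (hf : f ∈ unitary (L X)) (m : ℕ) : cls B (f ^ m) = (m : ℤ) • cls B f := by
  have := cls_prod (B := B) (range m) (f := fun _ => f) fun _ => hf
  simpa using this

theorem cls_cj {f : L X} (hf : f ∈ unitary (L X)) (ω : Fin t → Bool) :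
    cls B (cj ω f) = sg ω • cls B f := by
  unfold cj sg; split_ifs
  · simp
  · simp [cls_star hf]

end Classes

variable {A A' A'' : ℕ → Type} [∀ n, AddCommGroup (A n)] [∀ n, Fintype (A n)]
  [∀ n, AddCommGroup (A' n)] [∀ n, Fintype (A' n)] [∀ n, AddCommGroup (A'' n)]
  [∀ n, Fintype (A'' n)] {t : ℕ}

theorem Gen_cj {s : ℕ} (ω : Fin s → Bool) {f : L A} (hf : f ∈ Gen A t) : cj ω f ∈ Gen A t := by
  unfold cj; split_ifs
  exacts [hf, Gen_star _ _ hf]

/-- The vertex maps. -/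
def vh (ω : Fin t → Bool) (n : ℕ) : P2 A (Pw (Fin t) A) n →+ A n :=
  AddMonoidHom.mk' (fun p => vtx p.1 p.2 ω) fun p q => vtx_add' _ _ _ _ _

@[simp] theorem vh_apply (ω : Fin t → Bool) (n : ℕ) (p : P2 A (Pw (Fin t) A) n) :
    vh ω n p = vtx p.1 p.2 ω := rfl

theorem vh_surj (ω : Fin t → Bool) (n : ℕ) : Function.Surjective (vh (A := A) ω n) :=
  fun x => ⟨(x, 0), by simp [vtx]⟩

/-- Product over the cube. -/
def cubeL (t : ℕ) (f : L A) : L (P2 A (Pw (Fin t) A)) := ∏ ω, comap (fun n => vh ω n) (cj ω f)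

theorem Nz_iff {f : L A} : Nz t f ↔ E (cubeL (t + 1) f) = 0 := by
  have h : Tendsto (fun n => (Mf t (f n) : ℂ)) (U : Filter ℕ) (𝓝 (E (cubeL (t + 1) f))) :=
    (tendsto_E _).congr fun n => by rw [← Nf_eq_Mf]; simp [cubeL, Nf, cube]
  constructor
  · intro h1
    exact tendsto_nhds_unique h (by simpa [Function.comp_def] using (Complex.continuous_ofReal.tendsto _).comp h1)
  · intro h1
    rw [h1] at h
    simpa [Function.comp_def, Nz] using (Complex.continuous_re.tendsto _).comp h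

theorem inv_rest (s : Fin t → ∀ n, A' n → A n) (g : (Fin t → Bool) → L A) :
    Inv (Z := P2 A (Pw (Fin t) A)) (fun j n y => (s j n y, -Pi.single j (s j n y)))
      (∏ ω ∈ univ.erase (fun _ => false), comap (fun n => vh ω n) (g ω)) :=
  Inv.prod fun ω hω => by
    obtain ⟨j, hj⟩ := exists_true (ne_of_mem_erase hω)
    exact Inv.single j fun n z y => by simp [vtx_inv hj]

theorem prod_split {M : Type*} [CommMonoid M] (F : (Fin t → Bool) → M) :
    ∏ ω, F ω = F (fun _ => false) * ∏ ω ∈ univ.erase (fun _ => false), F ω :=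
  (mul_prod_erase _ _ (mem_univ _)).symm

theorem Nz_of_slices (Ψ : ∀ n, A'' n →+ A' n) {u : L A'}
    (h : ∀ z, Nz t (comap (fun n => Ψ n) (sh z u))) : Nz t u := by
  let F : L (P2 (P2 A'' (Pw (Fin (t + 1)) A'')) (P2 A' (Pw (Fin (t + 1)) A'))) :=
    ∏ ω, comap (fun n p => Ψ n (vtx p.1.1 p.1.2 ω) + vtx p.2.1 p.2.2 ω) (cj ω u)
  have h1 : E F = E (cubeL (t + 1) u) := E_congr (Eventually.of_forall fun n => by
    rw [expect_prod', ← Fintype.expect_const (ι := P2 A'' (Pw (Fin (t + 1)) A'') n)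
      (𝔼 y, cubeL (t + 1) u n y)]
    refine expect_congr rfl fun p _ => ?_
    rw [← expect_shift' (fun y => cubeL (t + 1) u n y) (Ψ n p.1, fun r => Ψ n (p.2 r))]
    simp [F, cubeL, map_vtx, vtx_add'])
  rw [Nz_iff, ← h1, ← E_avg, E_eq_inner]
  refine inner_avg_zero _ _ fun p => ?_
  rw [← E_eq_inner, ← gvnL (fun n => AddMonoidHom.fst _ _) (Eventually.of_forall fun n j y => rfl)
    (h fun n => (p n).1) (inv_rest (fun _ _ y => y) fun ω =>
      comap (fun n => Ψ n) (sh (fun n => vtx (p n).1 (p n).2 ω) (cj ω u)))]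
  congr 1
  ext n y
  simp only [F, sl_apply, L.prod_apply, comap_apply, L.mul_apply]
  rw [prod_split]
  simp

theorem not_Nz {u : L A} (h1 : u ∈ unitary (L A)) (h2 : u ∈ G A t) : ¬Nz t u := fun h => by
  have := easy t u h u h2
  rw [inner_unit h1] at this
  exact one_ne_zero this

theorem dl_mul_sh {u : L A} (hu : u ∈ unitary (L A)) (z : ∀ n, A n) : dl z u * sh z u = u := by
  rw [dl, mul_assoc, Unitary.star_mul_self_of_mem (unit_map _ hu), mul_one]

theorem dl_unit {u : L A} (hu : u ∈ unitary (L A)) (z : ∀ n, A n) : dl z u ∈ unitary (L A) :=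
  mul_mem hu (Unitary.star_mem (unit_map _ hu))

theorem restrict (Ψ : ∀ n, A'' n →+ A' n) {u : L A'} (h1 : u ∈ unitary (L A')) (h2 : u ∈ G A' t)
    (hd : ∀ z, comap (fun n => Ψ n) (dl z u) ∈ G A'' t) : comap (fun n => Ψ n) u ∈ G A'' t := by
  obtain ⟨z, hz⟩ := not_forall.1 fun h => not_Nz h1 h2 (Nz_of_slices Ψ h)
  obtain ⟨b, hb, hb'⟩ : ∃ b ∈ G A'' t, ⟪comap (fun n => Ψ n) (sh z u), b⟫_ℂ ≠ 0 := by
    by_contra hc
    push Not at hc
    exact hz (inverse t _ hc)
  refine (G_SI t).dich (fun h => by rw [dl_comap]; exact hd _) (mul_mem (hd z) hb) ?_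
  rw [← dl_mul_sh h1 z, map_mul, dl_mul_sh h1 z, inner_def, star_mul', mul_mul_mul_comm,
    Unitary.star_mul_self_of_mem (unit_map _ (dl_unit h1 z)), one_mul]
  exact hb'

variable {ι : Type} [Fintype ι] [DecidableEq ι]

/-- An integer linear form. -/
def lf (c : ι → ℤ) (n : ℕ) : Pw ι A n →+ A n :=
  AddMonoidHom.mk' (fun z => ∑ l, c l • z l) fun z w => by simp [sum_add_distrib]

theorem lf_apply (c : ι → ℤ) (n : ℕ) (z : Pw ι A n) : lf c n z = ∑ l, c l • z l := rfl

/-- A linear form as a function of its coefficients. -/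
def lfc (n : ℕ) (z : Pw ι A n) : (ι → ℤ) →+ A n :=
  AddMonoidHom.mk' (fun c => lf c n z) fun c d => by simp [lf_apply, add_smul, sum_add_distrib]

theorem lf_vtx (c₀ : ι → ℤ) (c : Fin t → ι → ℤ) (ω : Fin t → Bool) (n : ℕ) (z : Pw ι A n) :
    lf (vtx c₀ c ω) n z = vtx (lf c₀ n z) (fun r => lf (c r) n z) ω := map_vtx (lfc n z) _ _ _

theorem lf_smul (m : ℤ) (c : ι → ℤ) (n : ℕ) (z : Pw ι A n) : lf (m • c) n z = m • lf c n z :=
  map_zsmul (lfc n z) m c

@[simp] theorem lf_zero (n : ℕ) (z : Pw ι A n) : lf 0 n z = 0 := map_zero (lfc n z)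

@[simp] theorem lf_single (l : ι) (n : ℕ) (z : Pw ι A n) : lf (Pi.single l 1) n z = z l := by
  rw [lf_apply, sum_eq_single l] <;> simp +contextual [Pi.single_apply]

theorem lf_single' (c : ι → ℤ) (l : ι) (n : ℕ) (y : A n) : lf c n (Pi.single l y) = c l • y := by
  rw [lf_apply, sum_eq_single l] <;> simp +contextual [Pi.single_apply]

variable (A) in
/-- Every nonzero integer eventually acts surjectively. -/
def Dv : Prop := ∀ m : ℤ, m ≠ 0 → ∀ᶠ n in (U : Filter ℕ), Function.Surjective fun x : A n => m • x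

theorem lf_surj (hA : Dv A) {c : ι → ℤ} (hc : c ≠ 0) :
    ∀ᶠ n in (U : Filter ℕ), Function.Surjective (lf (A := A) c n) := by
  obtain ⟨l, hl⟩ := Function.ne_iff.1 hc
  filter_upwards [hA _ hl] with n hn x
  obtain ⟨y, hy⟩ := hn x
  exact ⟨Pi.single l y, by rw [lf_single']; exact hy⟩

theorem G_lf (hA : Dv A) (c : ι → ℤ) {b : L A} (hb : b ∈ G A t) :
    comap (fun n => lf c n) b ∈ G (Pw ι A) t := by
  by_cases hc : c = 0
  · exact mem_of_const (csp_closed _) fun n x y => by simp [hc]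
  · exact G_comap (lf_surj hA hc) hb

/-- The class of a character composed with a form. -/
def PP (t : ℕ) (χ : L A) (c : ι → ℤ) : Cl (G (Pw ι A) t) := cls _ (comap (fun n => lf c n) χ)

theorem rel (hA : Dv A) {J : Type} [Fintype J] {χ : J → L A} (hχ : ∀ j, χ j ∈ Gen A (t + 1))
    (ψ : J → ∀ n, A' n →+ A n) (Ψ : ∀ n, Pw ι A n →+ A' n) (c : J → ι → ℤ)
    (hc : ∀ j n z, ψ j n (Ψ n z) = lf (c j) n z)
    (hu : ∏ j, comap (fun n => ψ j n) (χ j) ∈ G A' t) : ∑ j, PP t (χ j) (c j) = 0 := by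
  have h1 : ∀ j (f : L A), comap (fun n => Ψ n) (comap (fun n => ψ j n) f) =
      comap (fun n => lf (c j) n) f := fun j f => by ext; simp [hc]
  have := restrict Ψ (prod_mem fun j _ => unit_map _ (hχ j).1) hu fun z => by
    rw [dl_prod, map_prod]
    exact prod_mem fun j _ => by rw [dl_comap, h1]; exact G_lf hA _ ((hχ j).2 _)
  simp only [map_prod, h1] at this
  rw [← cls_eq_zero (prod_mem fun j _ => unit_map _ (hχ j).1),
    cls_prod _ fun j => unit_map _ (hχ j).1] at this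
  exact this

theorem alt_PP (hA : Dv A) {χ : L A} (hχ : χ ∈ Gen A (t + 1)) (c₀ : ι → ℤ)
    (c : Fin (t + 1 + 1) → ι → ℤ) : alt (PP t χ) c₀ c = 0 := by
  have h1 : cubeL (t + 1 + 1) χ ∈ G _ t := by
    refine (G_SI t).dich (fun h => ?_) (one_mem _) fun h => not_Nz hχ.1 (subset_csp hχ) ?_
    · rw [cubeL, dl_prod]
      exact prod_mem fun ω _ => by
        rw [dl_comap]
        exact G_comap (Eventually.of_forall (vh_surj ω)) ((Gen_cj ω hχ).2 _)
    · rw [Nz_iff, E_eq_inner, ← inner_conj_symm, h, map_zero]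
  rw [← rel hA (fun ω => Gen_cj ω hχ) (fun ω => vh ω)
    (fun n => (lf c₀ n).prod (AddMonoidHom.pi fun r => lf (c r) n)) (fun ω => vtx c₀ c ω)
    (fun ω n z => (lf_vtx _ _ _ _ _).symm) h1]
  refine sum_congr rfl fun ω _ => ?_
  rw [PP, PP, map_cj, cls_cj (unit_map _ hχ.1)]

/-- The edge forms. -/
def ee (r : Fin t) : Option (Fin t) → ℤ := Pi.single (some r) 1

/-- The top derivative of a character. -/
def TT (t : ℕ) (χ : L A) : Cl (G (Pw (Option (Fin (t + 1))) A) t) :=
  alt (PP t χ) (Pi.single none 1) (ee (t := t + 1))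

theorem TT_mul {f g : L A} (hf : f ∈ unitary (L A)) (hg : g ∈ unitary (L A)) :
    TT t (f * g) = TT t f + TT t g := by
  simp only [TT, alt, PP, map_mul, cls_mul (unit_map _ hf) (unit_map _ hg), smul_add,
    sum_add_distrib]

theorem TT_star {f : L A} (hf : f ∈ unitary (L A)) : TT t (star f) = -TT t f := by
  simp only [TT, alt, PP, map_star, cls_star (unit_map _ hf), smul_neg, sum_neg_distrib]

theorem TT_pow {f : L A} (hf : f ∈ unitary (L A)) (m : ℕ) : TT t (f ^ m) = (m : ℤ) • TT t f := by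
  simp only [TT, alt, PP, map_pow, cls_pow (unit_map _ hf), smul_sum, smul_comm (m : ℤ)]

theorem TT_of_mem (hA : Dv A) {f : L A} (hf : f ∈ unitary (L A)) (h : f ∈ G A t) : TT t f = 0 :=
  sum_eq_zero fun ω _ => by rw [PP, (cls_eq_zero (unit_map _ hf)).2 (G_lf hA _ h), smul_zero]

theorem TT_inj {η : L A} (hη : η ∈ Gen A (t + 1)) (h : TT t η = 0) : η ∈ G A t := by
  set V : L (Pw (Option (Fin (t + 1))) A) :=
    ∏ ω : Fin (t + 1) → Bool, comap (fun n => lf (vtx (Pi.single none 1) ee ω) n) (cj ω η) with hV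
  have hu : ∀ (ω : Fin (t + 1) → Bool) (c : Option (Fin (t + 1)) → ℤ),
      comap (fun n => lf c n) (cj ω η) ∈ unitary _ := fun ω c => unit_map _ (Gen_cj ω hη).1
  have hVu : V ∈ unitary _ := prod_mem fun ω _ => hu ω _
  have hVG : V ∈ G _ t := by
    rw [← cls_eq_zero hVu, hV, cls_prod _ fun ω => hu ω _, ← h]
    exact sum_congr rfl fun ω _ => by rw [map_cj, cls_cj (unit_map _ hη.1), PP]
  by_contra hc
  refine not_Nz hVu hVG ?_
  have hN : Nz t η := inverse t η fun b hb => by_contra fun h0 => hc ((G_SI t).dich hη.2 hb h0)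
  let s : Fin (t + 1) → ∀ n, A n → Pw (Option (Fin (t + 1))) A n :=
    fun j n y => Pi.single none y - Pi.single (some j) y
  rw [Nz_iff, ← gvnL (Z := P2 (Pw (Option (Fin (t + 1))) A) (Pw (Fin (t + 1)) _))
    (fun n => (Pi.evalAddMonoidHom _ none).comp (AddMonoidHom.fst _ _))
    (σ := fun j n y => (s j n y, -Pi.single j (s j n y)))
    (Eventually.of_forall fun n j y => by simp [s]) hN
    (Inv.mul (F := comap (fun n p => p.1) (∏ ω ∈ univ.erase (fun _ => false),
      comap (fun n => lf (vtx (Pi.single none 1) ee ω) n) (cj ω η))) ?_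
      (inv_rest s fun ω => cj ω V))]
  · congr 1
    rw [cubeL, prod_split, ← mul_assoc]
    congr 1
    ext n p
    simp only [hV, cj_zero, comap_apply, vh_apply, vtx_zero, L.prod_apply, L.mul_apply]
    rw [prod_split]
    simp
  · rw [map_prod]
    refine Inv.prod fun ω hω => ?_
    obtain ⟨j, hj⟩ := exists_true (ne_of_mem_erase hω)
    refine Inv.single j fun n z y => ?_
    have : lf (vtx (Pi.single none 1) ee ω) n (s j n y) = 0 := by
      have e : (fun r => lf (ee r) n (s j n y)) = -Pi.single j y := by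
        ext r; simp [ee, s, Pi.single_apply]
      rw [lf_vtx, e, lf_single]
      simp [s, vtx_single, hj]
    simp [this]

/-- Dilation. -/
def dil (m : ℤ) (n : ℕ) : A n →+ A n := zsmulAddGroupHom m

@[simp] theorem dil_apply (m : ℤ) (n : ℕ) (x : A n) : dil m n x = m • x := rfl

theorem TT_dil (hA : Dv A) {χ : L A} (hχ : χ ∈ Gen A (t + 1)) (m : ℤ) :
    TT t (comap (fun n => dil m n) χ) = m ^ (t + 1) • TT t χ := by
  have h1 : ∀ c : Option (Fin (t + 1)) → ℤ, PP t (comap (fun n => dil m n) χ) c = PP t χ (m • c) :=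
    fun c => by rw [PP, PP]; congr 1; ext; simp only [comap_apply, dil_apply, lf_smul]
  have h2 := alt_smul (alt_PP hA hχ) (m • Pi.single none 1) (ee (t := t + 1)) fun _ => m
  rw [prod_const, card_univ, Fintype.card_fin, alt_base (alt_PP hA hχ) _ (Pi.single none 1) ee] at h2
  rw [TT, TT, ← h2]
  refine sum_congr rfl fun ω _ => ?_
  rw [h1]
  congr 2
  exact map_vtx (zsmulAddGroupHom m) _ _ _

open Classical in
/-- Inverse of a dilation. -/
def undil (m : ℤ) (n : ℕ) : A n →+ A n :=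
  if h : Function.Bijective (dil (A := A) m n) then (AddEquiv.ofBijective _ h).symm else 0

theorem dil_undil (hA : Dv A) {m : ℤ} (hm : m ≠ 0) :
    ∀ᶠ n in (U : Filter ℕ), (∀ x : A n, m • undil m n x = x) ∧ ∀ x : A n, undil m n (m • x) = x := by
  filter_upwards [hA m hm] with n hn
  have h : Function.Bijective (dil (A := A) m n) := Finite.surjective_iff_bijective.1 hn
  rw [undil, dif_pos h]
  exact ⟨(AddEquiv.ofBijective _ h).apply_symm_apply, (AddEquiv.ofBijective _ h).symm_apply_apply⟩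

theorem torsion_free (hA : Dv A) {χ : L A} (hχ : χ ∈ Gen A (t + 1)) {m : ℤ} (hm : m ≠ 0)
    (h : m • TT t χ = 0) : χ ∈ G A t := by
  have h1 := TT_inj (Gen_comap (ψ := dil m) (hA m hm) _ _ hχ)
    (by rw [TT_dil hA hχ, pow_succ, mul_smul, h, smul_zero])
  have h2 := G_comap (ψ := undil m)
    ((dil_undil hA hm).mono fun n hn x => ⟨m • x, hn.2 x⟩) h1
  exact mem_of_null (csp_closed _) h2
    (norm_sub_eq_zero_of_eq ((dil_undil hA hm).mono fun n hn x => by simp [hn.1]))

theorem dil_two (hA : Dv A) {χ : L A} (hχ : χ ∈ Gen A (t + 1)) :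
    comap (fun n => dil 2 n) χ * star (χ ^ 2 ^ (t + 1)) ∈ G A t := by
  have h1 := Gen_comap (ψ := dil 2) (hA 2 two_ne_zero) _ _ hχ
  have h2 := Gen_pow _ hχ (2 ^ (t + 1))
  refine TT_inj (Gen_mul _ _ h1 _ (Gen_star _ _ h2)) ?_
  rw [TT_mul h1.1 (Unitary.star_mem h2.1), TT_star h2.1, TT_pow hχ.1, TT_dil hA hχ]
  simp

end Pool.Agent.MP_3b3b41_nt

end
end

-- part MP_3b3b41_nt.Core
section

/-! The true complexity theorem in the limit. -/

open Finset Filter Topology
open scoped BigOperators ComplexConjugate InnerProductSpace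

set_option linter.unusedSectionVars false
set_option linter.unusedSimpArgs false
set_option linter.unusedVariables false

noncomputable section

namespace Pool.Agent.MP_3b3b41_nt

variable {A : ℕ → Type} [∀ n, AddCommGroup (A n)] [∀ n, Fintype (A n)]
  {ι J : Type} [Fintype ι] [DecidableEq ι] [Fintype J] [DecidableEq J] {Φ : J → ι → ℤ} {i : J}
  {t : ℕ}

/-- An integer functional separates the tensor power of the form `i` from the other ones. -/
def Ind (Φ : J → ι → ℤ) (i : J) (D : ℕ) : Prop :=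
  ∃ β : (Fin D → ι) → ℤ, ∑ a, β a * ∏ r, Φ i (a r) ≠ 0 ∧ ∀ j, j ≠ i → ∑ a, β a * ∏ r, Φ j (a r) = 0

theorem Ind.ne_zero {D : ℕ} (h : Ind Φ i (D + 1)) : Φ i ≠ 0 := fun h0 => by
  obtain ⟨β, h1, -⟩ := h
  simp [h0] at h1

theorem Ind.succ {D : ℕ} (h : Ind Φ i (D + 1)) : Ind Φ i (D + 1 + 1) := by
  obtain ⟨l, hl⟩ := Function.ne_iff.1 h.ne_zero
  obtain ⟨β, h1, h2⟩ := h
  have key : ∀ j, ∑ a : Fin (D + 1 + 1) → ι, (if a 0 = l then β (Fin.tail a) else 0) *
      ∏ r, Φ j (a r) = Φ j l * ∑ a, β a * ∏ r, Φ j (a r) := fun j => by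
    rw [← (Fin.consEquiv fun _ => ι).sum_comp, Fintype.sum_prod_type, sum_eq_single l, mul_sum]
    · refine sum_congr rfl fun a _ => ?_
      rw [show (Fin.consEquiv fun _ => ι) (l, a) = Fin.cons l a from rfl]
      simp only [Fin.cons_zero, if_true, Fin.tail_cons,
        Fin.prod_univ_succ (n := D + 1), Fin.cons_succ]
      ring
    · intro b _ hb
      simp [hb]
    · simp
  exact ⟨_, by rw [key]; exact mul_ne_zero hl h1, fun j hj => by rw [key, h2 j hj, mul_zero]⟩

theorem Ind.mono {D D' : ℕ} (h : Ind Φ i (D + 1)) (hD : D ≤ D') : Ind Φ i (D' + 1) := by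
  induction hD with
  | refl => exact h
  | step _ ih => exact ih.succ

theorem Ind.scale {D : ℕ} (h : Ind Φ i D) {j : J} (hj : j ≠ i) {a b : ℤ}
    (hab : a • Φ i = b • Φ j) : a = 0 := by
  obtain ⟨β, h1, h2⟩ := h
  have key : ∀ (a : ℤ) (c : ι → ℤ), ∑ x : Fin D → ι, β x * ∏ r, (a • c) (x r) =
      a ^ D * ∑ x, β x * ∏ r, c (x r) := fun a c => by
    simp [prod_mul_distrib, mul_sum, mul_left_comm]
  have := key a (Φ i)
  rw [hab, key, h2 j hj, mul_zero] at this
  exact pow_eq_zero_iff'.1 ((mul_eq_zero.1 this.symm).resolve_right h1) |>.1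

theorem prop_of {c c' : ι → ℤ} (h : ¬∃ v, c' ⬝ᵥ v = 0 ∧ c ⬝ᵥ v ≠ 0) (l : ι) :
    c l • c' = c' l • c := by
  ext l'
  by_contra h0
  refine h ⟨Pi.single l (c' l') - Pi.single l' (c' l), by simp [mul_comm], fun h1 => h0 ?_⟩
  simp only [dotProduct_sub, dotProduct_single] at h1
  simp only [Pi.smul_apply, smul_eq_mul]
  linarith

theorem tensor (hA : Dv A) (hI : Ind Φ i (t + 1)) {ψ : J → L A} (hψ : ∀ j, ψ j ∈ Gen A (t + 1))
    (hu : ∏ j, comap (fun n => lf (Φ j) n) (ψ j) ∈ G (Pw ι A) t) : ψ i ∈ G A t := by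
  have key : ∀ a : Fin (t + 1) → ι, ∑ j, (∏ r, Φ j (a r)) • TT t (ψ j) = 0 := fun a => by
    have h1 : ∀ ω : Fin (t + 1) → Bool,
        ∑ j, PP t (ψ j) (vtx 0 (fun r => Φ j (a r) • ee r) ω) = 0 := fun ω =>
      rel hA hψ (fun j => lf (Φ j)) (fun n => AddMonoidHom.mk'
        (fun z => vtx 0 (fun r => Pi.single (a r) (z (some r))) ω) fun z w => by
          rw [← vtx_add', add_zero]
          congr 1; ext r : 1; simp [Pi.single_add]) _
        (fun j n z => by simp only [map_vtx, lf_vtx, lf_single', lf_smul, ee, lf_single, map_zero,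
          lf_zero, AddMonoidHom.mk'_apply]) hu
    calc ∑ j, (∏ r, Φ j (a r)) • TT t (ψ j)
        = ∑ j, alt (PP t (ψ j)) 0 (fun r => Φ j (a r) • ee r) := sum_congr rfl fun j _ => by
          rw [alt_smul (alt_PP hA (hψ j)), TT, alt_base (alt_PP hA (hψ j)) 0]
      _ = 0 := by
          simp only [alt]
          rw [sum_comm]
          simp only [← smul_sum, h1, smul_zero, sum_const_zero]
  obtain ⟨β, h1, h2⟩ := hI
  refine torsion_free hA (hψ i) h1 ?_
  have h3 : ∑ a, β a • ∑ j, (∏ r, Φ j (a r)) • TT t (ψ j) = 0 := by simp [key]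
  simp only [smul_sum, smul_smul] at h3
  rw [sum_comm] at h3
  simp only [← sum_smul] at h3
  rwa [sum_eq_single i (fun j _ hj => by rw [h2 j hj, zero_smul]) (by simp)] at h3

/-- Products of characters composed with the forms. -/
def Gam (A : ℕ → Type) [∀ n, AddCommGroup (A n)] [∀ n, Fintype (A n)] (Φ : J → ι → ℤ)
    (ρ : J → ℕ) : Set (L (Pw ι A)) :=
  {u | ∃ χ : J → L A, (∀ j, χ j ∈ Gen A (ρ j)) ∧ u = ∏ j, comap (fun n => lf (Φ j) n) (χ j)}

variable {ρ ρ' : J → ℕ}

theorem Gam_orth {w f : L (Pw ι A)} (h : ∀ u ∈ Gam A Φ ρ, ⟪w, u⟫_ℂ = 0) (hf : f ∈ csp (Gam A Φ ρ)) :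
    ⟪w, f⟫_ℂ = 0 := by
  refine csp_orth (show 1 ∈ Gam A Φ ρ from ⟨fun _ => 1, fun j => Gen_one _, by simp⟩) ?_ ?_ h hf
  · rintro _ ⟨χ, h1, rfl⟩ _ ⟨η, h2, rfl⟩
    exact ⟨fun j => χ j * η j, fun j => Gen_mul _ _ (h1 j) _ (h2 j), by simp [prod_mul_distrib]⟩
  · rintro _ ⟨χ, h1, rfl⟩
    exact ⟨fun j => star (χ j), fun j => Gen_star _ _ (h1 j), by simp [star_prod, map_star]⟩

theorem CC_mem (hA : Dv A) {j : J} {b : L A} (hb : b ∈ G A (ρ j)) :
    comap (fun n => lf (Φ j) n) b ∈ csp (Gam A Φ ρ) := by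
  by_cases hc : Φ j = 0
  · exact mem_of_const (csp_closed _) fun n x y => by simp [hc]
  refine csp_map (csp_closed _) _ (MP_surj (lf_surj hA hc)).continuous
    (fun χ hχ => subset_csp (show _ ∈ Gam A Φ ρ from ⟨Pi.mulSingle j χ, fun j' => ?_, ?_⟩)) hb
  · by_cases h : j' = j
    · subst h; simpa using hχ
    · simpa [Pi.mulSingle_eq_of_ne h] using Gen_one _
  · rw [prod_eq_single j (fun j' _ h => by simp [Pi.mulSingle_eq_of_ne h]) (by simp)]
    simp

theorem CC_map {Y : ℕ → Type} [∀ n, Fintype (Y n)] [∀ n, Nonempty (Y n)]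
    {B : StarSubalgebra ℂ (L Y)} (hB : IsClosed (B : Set (L Y))) (φ : L (Pw ι A) →⋆ₐ[ℂ] L Y)
    (hφ : Continuous φ) (h : ∀ j, ∀ χ ∈ Gen A (ρ j), φ (comap (fun n => lf (Φ j) n) χ) ∈ B)
    {u : L (Pw ι A)} (hu : u ∈ csp (Gam A Φ ρ)) : φ u ∈ B := by
  refine csp_map hB φ hφ ?_ hu
  rintro _ ⟨χ, h1, rfl⟩
  rw [map_prod]
  exact prod_mem fun j _ => h j _ (h1 j)

theorem CC_SI (hA : Dv A) : SI (csp (Gam A Φ ρ)) :=
  ⟨csp_closed _, fun h u hu => CC_map (csp_closed _) _ (MP_sh h).continuous (fun j χ hχ => by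
    convert CC_mem hA (subset_csp (Gen_sh _ (fun n => lf (Φ j) n (h n)) _ hχ)) using 1
    ext; simp) hu⟩

theorem Dv.pw (hA : Dv A) : Dv (Pw ι A) := fun m hm => (hA m hm).mono fun n hn z => by
  choose y hy using fun l => hn (z l)
  exact ⟨y, funext hy⟩

theorem CC_dil (hA : Dv A) {u : L (Pw ι A)} (hu : u ∈ csp (Gam A Φ ρ)) :
    comap (fun n => dil 2 n) u ∈ csp (Gam A Φ ρ) :=
  CC_map (csp_closed _) _ (MP_surj (ψ := dil 2) (hA.pw 2 two_ne_zero)).continuous (fun j χ hχ => by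
    convert CC_mem hA (subset_csp (Gen_comap (ψ := dil 2) (hA 2 two_ne_zero) _ _ hχ)) using 1
    ext; simp only [comap_apply, dil_apply, map_zsmul]) hu

theorem descend (hA : Dv A) {r : ℕ} {χ : L A} (hχ : χ ∈ Gen A (t + 1))
    (h : comap (fun n => lf (Φ i) n) χ ∈ csp (Gam A Φ fun j => if j = i then t else r + 1)) :
    ∃ ψ : J → L A, ψ i = χ ∧ (∀ j, ψ j ∈ Gen A ((if j = i then t else r) + 1)) ∧
      ∏ j, comap (fun n => lf (Φ j) n) (ψ j) ∈ csp (Gam A Φ fun j => if j = i then t else r) := by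
  obtain ⟨_, ⟨η, hη, rfl⟩, h0⟩ : ∃ u ∈ Gam A Φ fun j => if j = i then t else r + 1,
      ⟪comap (fun n => lf (Φ i) n) χ, u⟫_ℂ ≠ 0 := by
    by_contra hc
    push Not at hc
    have := Gam_orth hc h
    rw [inner_unit (unit_map _ hχ.1)] at this
    exact one_ne_zero this
  have hψ : ∀ j, Function.update (fun j => star (η j)) i χ j ∈
      Gen A ((if j = i then t else r) + 1) := fun j => by
    by_cases hj : j = i
    · subst hj; simpa using hχ
    · have := Gen_star _ _ (hη j)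
      simpa [hj] using this
  refine ⟨_, by simp, hψ, (CC_SI hA).dich (fun z => ?_)
    (CC_mem hA (j := i) (b := η i) (subset_csp (by simpa using hη i))) ?_⟩
  · rw [dl_prod]
    exact prod_mem fun j _ => by rw [dl_comap]; exact CC_mem hA ((hψ j).2 _)
  · convert h0 using 1
    rw [inner_def, inner_def, ← mul_prod_erase _ _ (mem_univ i), ← mul_prod_erase _ _ (mem_univ i),
      star_mul', star_prod, mul_assoc, mul_comm (∏ j ∈ _, _)]
    congr 3
    · simp
    · exact prod_congr rfl fun j hj => by simp [ne_of_mem_erase hj, map_star]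

theorem core_S (hA : Dv A) (hI : Ind Φ i (t + 1)) : ∀ (m : ℕ) {χ : L A}, χ ∈ Gen A (t + 1) →
    comap (fun n => lf (Φ i) n) χ ∈ csp (Gam A Φ fun j => if j = i then t else t + m + 1) →
    χ ∈ G A t
  | 0, χ, hχ, h => by
    obtain ⟨ψ, rfl, h1, h2⟩ := descend hA hχ h
    simp only [add_zero, ite_self] at h1 h2
    exact tensor hA hI h1 (CC_map (csp_closed _) (StarAlgHom.id ℂ _) continuous_id
      (fun j η hη => G_lf hA _ (subset_csp hη)) h2)
  | m + 1, χ, hχ, h => by
    obtain ⟨ψ, rfl, h1, h2⟩ := descend hA hχ h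
    set B := csp (Gam A Φ fun j => if j = i then t else t + (m + 1)) with hB
    have hu : ∀ j, comap (fun n => lf (Φ j) n) (ψ j) ∈ unitary _ := fun j => unit_map _ (h1 j).1
    have hu2 : ∀ j, comap (fun n => lf (Φ j) n) (comap (fun n => dil 2 n) (ψ j)) ∈ unitary _ :=
      fun j => unit_map _ (unit_map _ (h1 j).1)
    have h3 := CC_dil hA h2
    have h4 : comap (fun n => dil 2 n) (∏ j, comap (fun n => lf (Φ j) n) (ψ j)) =
        ∏ j, comap (fun n => lf (Φ j) n) (comap (fun n => dil 2 n) (ψ j)) := by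
      ext; simp only [comap_apply, dil_apply, map_zsmul, L.prod_apply]
    rw [h4, ← cls_eq_zero (prod_mem fun j _ => hu2 j), cls_prod _ hu2] at h3
    rw [← cls_eq_zero (prod_mem fun j _ => hu j), cls_prod _ hu] at h2
    have h5 : ∀ j, cls B (comap (fun n => lf (Φ j) n) (comap (fun n => dil 2 n) (ψ j))) =
        (2 : ℤ) ^ ((if j = i then t else t + (m + 1)) + 1) •
          cls B (comap (fun n => lf (Φ j) n) (ψ j)) := fun j => by
      have := CC_mem (Φ := Φ) (ρ := fun j => if j = i then t else t + (m + 1)) hA (dil_two hA (h1 j))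
      rw [map_mul, map_star, map_pow,
        ← cls_eq_zero (mul_mem (hu2 j) (Unitary.star_mem (pow_mem (hu j) _))),
        cls_mul (hu2 j) (Unitary.star_mem (pow_mem (hu j) _)), cls_star (pow_mem (hu j) _),
        cls_pow (hu j), add_neg_eq_zero] at this
      simpa using this
    obtain ⟨N, hN⟩ : ∃ N : ℕ, 2 ^ (t + (m + 1) + 1) = 2 ^ (t + 1) + (N + 1) :=
      Nat.exists_eq_add_of_lt (Nat.pow_lt_pow_right one_lt_two (by omega))
    have h6 : ((N + 1 : ℕ) : ℤ) • cls B (comap (fun n => lf (Φ i) n) (ψ i)) = 0 := by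
      have h7 := congrArg ((2 : ℤ) ^ (t + (m + 1) + 1) • ·) h2
      simp only [smul_sum, smul_zero] at h7
      rw [sum_congr rfl fun j _ => h5 j] at h3
      have h8 := sub_eq_zero.2 (h7.trans h3.symm)
      rw [← sum_sub_distrib, sum_eq_single i (fun j _ hj => by simp [hj]) (by simp), if_pos rfl,
        ← sub_smul] at h8
      convert h8 using 2
      exact_mod_cast (by zify at hN; push_cast; linarith :
        ((N + 1 : ℕ) : ℤ) = 2 ^ (t + (m + 1) + 1) - 2 ^ (t + 1))
    rw [← cls_pow (hu i), cls_eq_zero (pow_mem (hu i) _), ← map_pow] at h6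
    have h9 := core_S hA hI m (Gen_pow _ hχ _) h6
    refine torsion_free hA hχ (m := (N + 1 : ℕ)) (by omega) ?_
    rw [← TT_pow hχ.1, TT_of_mem hA (pow_mem hχ.1 _) h9]

theorem orth_CC (hA : Dv A) (hI : Ind Φ i (t + 1)) (m : ℕ) {χ : L A} (hχ : χ ∈ Gen A (t + 1))
    (h : χ ∉ G A t) {c : L (Pw ι A)}
    (hc : c ∈ csp (Gam A Φ fun j => if j = i then t else t + m + 1)) :
    ⟪comap (fun n => lf (Φ i) n) χ, c⟫_ℂ = 0 :=
  by_contra fun h0 => h (core_S hA hI m hχ ((CC_SI hA).dich (fun z => by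
    rw [dl_comap]; exact CC_mem hA (by rw [if_pos rfl]; exact hχ.2 _)) hc h0))

/-- Average over the fibres of a homomorphism. -/
theorem exists_fib {Z : ℕ → Type} [∀ n, AddCommGroup (Z n)] [∀ n, Fintype (Z n)]
    {φ : ∀ n, Z n →+ A n} (hφ : ∀ᶠ n in (U : Filter ℕ), Function.Surjective (φ n)) (c : L Z) :
    ∃ D : L A, ∀ x : L A, ⟪comap (fun n => φ n) x, c⟫_ℂ = ⟪x, D⟫_ℂ := by
  refine ⟨avg (comap (fun n (p : P2 A Z n) => p.2 + Function.invFun (φ n) (p.1 - φ n p.2)) c),
    fun x => E_congr (hφ.mono fun n hn => ?_)⟩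
  simp only [L.mul_apply, L.star_apply, comap_apply, avg_apply, mul_expect]
  rw [expect_comm, ← Fintype.expect_const (ι := A n) (𝔼 z, conj (x n (φ n z)) * c n z)]
  rw [show (𝔼 z : Z n, 𝔼 y : A n, conj (x n y) * c n (z + Function.invFun (φ n) (y - φ n z))) =
      𝔼 z : Z n, 𝔼 y : A n, conj (x n (φ n z + y)) * c n (z + Function.invFun (φ n) y) from
    expect_congr rfl fun z _ => by
      rw [← expect_shift' _ (φ n z)]; simp, expect_comm (univ : Finset (Z n))]
  refine expect_congr rfl fun y _ => ?_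
  rw [← expect_shift _ (Function.invFun (φ n) y)]
  simp [Function.rightInverse_invFun hn y]

theorem lf_vec (c v : ι → ℤ) (n : ℕ) (y : A n) : lf c n (fun l => v l • y) = (c ⬝ᵥ v) • y := by
  simp [lf_apply, dotProduct, sum_smul, smul_smul]

variable {T : ℕ} {Φ : Fin (T + 1) → ι → ℤ} {i : Fin (T + 1)}

theorem gvn_forms (hA : Dv A) {j₀ : Fin (T + 1)} (h0 : Φ j₀ ≠ 0) {f : Fin (T + 1) → L A}
    (hsep : ∀ j, j ≠ j₀ → f j = 1 ∨ ∃ v, Φ j ⬝ᵥ v = 0 ∧ Φ j₀ ⬝ᵥ v ≠ 0) {w : L A} (hw : Nz T w) :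
    E (comap (fun n => lf (Φ j₀) n) w *
      ∏ j ∈ univ.erase j₀, comap (fun n => lf (Φ j) n) (f j)) = 0 := by
  obtain ⟨l, hl⟩ := Function.ne_iff.1 h0
  have : ∀ j, ∃ v, Φ j₀ ⬝ᵥ v ≠ 0 ∧ (j ≠ j₀ → f j = 1 ∨ Φ j ⬝ᵥ v = 0) := fun j => by
    by_cases hj : j = j₀
    · exact ⟨Pi.single l 1, by simpa using hl, fun h => (h hj).elim⟩
    · rcases hsep j hj with h | ⟨v, h1, h2⟩
      · exact ⟨Pi.single l 1, by simpa using hl, fun _ => Or.inl h⟩
      · exact ⟨v, h2, fun _ => Or.inr h1⟩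
  choose v hv1 hv2 using this
  refine gvnL (Z := Pw ι A) (fun n => lf (Φ j₀) n)
    (σ := fun j n y l => v j l • undil (Φ j₀ ⬝ᵥ v j) n y) ?_ hw (Inv.prod fun j hj => ?_)
  · filter_upwards [eventually_all.2 fun j => dil_undil hA (hv1 j)] with n hn j y
    rw [lf_vec, (hn j).1]
  · rcases hv2 j (ne_of_mem_erase hj) with h | h
    · rw [h, map_one]; exact Inv.one _
    · exact Inv.single j fun n z y => by simp only [comap_apply, map_add, lf_vec, h, zero_smul,
        add_zero]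

/-- The average over the system of forms. -/
def Lam (Φ : J → ι → ℤ) (f : J → L A) : ℂ := E (∏ j, comap (fun n => lf (Φ j) n) (f j))

theorem Lam_eq (Φ : J → ι → ℤ) (f : J → L A) (j₀ : J) : Lam Φ f =
    E (comap (fun n => lf (Φ j₀) n) (f j₀) *
      ∏ j ∈ univ.erase j₀, comap (fun n => lf (Φ j) n) (f j)) := by
  rw [Lam, mul_prod_erase _ (fun j => comap (fun n => lf (Φ j) n) (f j)) (mem_univ j₀)]

theorem replace (hA : Dv A) {D : ℕ} (hI : Ind Φ i D) {j : Fin (T + 1)} (hj : j ≠ i)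
    (f : Fin (T + 1) → L A) : ∃ f' : Fin (T + 1) → L A, Lam Φ f' = Lam Φ f ∧ f' i = f i ∧
      f' j ∈ G A T ∧ ∀ j', j' ≠ j → f j' ∈ G A T → f' j' ∈ G A T := by
  classical
  have hup : ∀ (f : Fin (T + 1) → L A) (g : L A),
      ∏ j' ∈ univ.erase j, comap (fun n => lf (Φ j') n) (Function.update f j g j') =
        ∏ j' ∈ univ.erase j, comap (fun n => lf (Φ j') n) (f j') := fun f g =>
    prod_congr rfl fun j' hj' => by rw [Function.update_of_ne (ne_of_mem_erase hj')]
  by_cases h0 : Φ j = 0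
  · refine ⟨Function.update f j (comap (fun n _ => 0) (f j)), ?_, Function.update_of_ne hj.symm _ _,
      by rw [Function.update_self]; exact mem_of_const (csp_closed _) fun n x y => rfl,
      fun j' h1 h2 => by rwa [Function.update_of_ne h1]⟩
    rw [Lam_eq Φ _ j, Lam_eq Φ _ j, hup]
    congr 2
    ext; simp [h0]
  obtain ⟨l, hl⟩ := Function.ne_iff.1 h0
  let R : Fin (T + 1) → Prop := fun j' => ¬∃ v, Φ j' ⬝ᵥ v = 0 ∧ Φ j ⬝ᵥ v ≠ 0
  have hRi : ¬R i := fun h => hl (hI.scale hj (prop_of h l))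
  have hRj : R j := fun ⟨v, h1, h2⟩ => h2 h1
  let F : L A := ∏ j' ∈ univ.filter R, comap (fun n y => undil (Φ j l) n (Φ j' l • y)) (f j')
  let f₁ : Fin (T + 1) → L A := fun j' => if R j' then 1 else f j'
  obtain ⟨g, hg, ho⟩ := exists_proj (csp_closed (Gen A T)) F
  refine ⟨Function.update f₁ j g, ?_, by simp only [Function.update_of_ne hj.symm, f₁, if_neg hRi],
    by rw [Function.update_self]; exact hg, fun j' h1 h2 => ?_⟩
  · have h1 := gvn_forms hA h0 (f := f₁) (fun j' _ => by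
      by_cases h : R j'
      · exact Or.inl (if_pos h)
      · exact Or.inr (not_not.1 h)) (inverse T _ ho)
    rw [map_sub, sub_mul, sub_eq_add_neg, E_add, ← neg_one_smul ℂ, E_smul, neg_one_mul,
      add_neg_eq_zero] at h1
    rw [Lam_eq Φ _ j, hup, Function.update_self, ← h1]
    refine E_congr ((dil_undil hA hl).mono fun n hn => expect_congr rfl fun z _ => ?_)
    simp only [L.mul_apply, L.prod_apply, comap_apply, F]
    rw [← prod_filter_mul_prod_filter_not univ R]
    congr 1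
    · refine prod_congr rfl fun j' hj' => ?_
      rw [← lf_smul, ← prop_of (mem_filter.1 hj').2 l, lf_smul, hn.2]
    · rw [prod_filter, ← mul_prod_erase _ _ (mem_univ j), if_neg (not_not.2 hRj), one_mul]
      refine prod_congr rfl fun j' _ => ?_
      by_cases h : R j' <;> simp only [f₁, h, if_true, if_false, not_true, not_false_iff, L.one_apply]
  · rw [Function.update_of_ne h1]
    by_cases h : R j'
    · simp only [f₁, if_pos h]; exact one_mem _
    · simp only [f₁, if_neg h]; exact h2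

theorem replace_all (hA : Dv A) {D : ℕ} (hI : Ind Φ i D) (f : Fin (T + 1) → L A)
    (S : Finset (Fin (T + 1))) : ∃ f' : Fin (T + 1) → L A, Lam Φ f' = Lam Φ f ∧ f' i = f i ∧
      ∀ j ∈ S, j ≠ i → f' j ∈ G A T := by
  induction S using Finset.induction_on with
  | empty => exact ⟨f, rfl, rfl, by simp⟩
  | insert a S ha ih =>
    obtain ⟨g, h1, h2, h3⟩ := ih
    by_cases hai : a = i
    · exact ⟨g, h1, h2, fun j hj hji => h3 j ((mem_insert.1 hj).resolve_left (hai ▸ hji)) hji⟩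
    obtain ⟨g', h4, h5, h6, h7⟩ := replace hA hI hai g
    refine ⟨g', h4.trans h1, h5.trans h2, fun j hj hji => ?_⟩
    by_cases hja : j = a
    · exact hja ▸ h6
    · exact h7 j hja (h3 j ((mem_insert.1 hj).resolve_left hja) hji)

theorem Nz_star {w : L A} (h : Nz t w) : Nz t (star w) := inverse t _ fun b hb => by
  have := easy t w h _ (star_mem hb)
  rw [inner_def, ← star_mul', E_star, map_eq_zero] at this
  rw [inner_def, star_star, this]

/-- True complexity in the limit. -/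
theorem limit_main (hA : Dv A) {s : ℕ} (hI : Ind Φ i (s + 1)) (f : Fin (T + 1) → L A)
    (hf : Nz s (f i)) : Lam Φ f = 0 := by
  obtain ⟨g, h1, h2, h3⟩ := replace_all hA hI f univ
  rw [← h1, Lam_eq Φ _ i, h2]
  set c := ∏ j ∈ univ.erase i, comap (fun n => lf (Φ j) n) (g j) with hc
  obtain ⟨D, hD⟩ := exists_fib (lf_surj hA hI.ne_zero) c
  have hD' : ∀ x : L A, E (comap (fun n => lf (Φ i) n) x * c) = E (x * D) := fun x => by
    simpa [inner_def, map_star] using hD (star x)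
  have hDT : D ∈ G A T := mem_G_of (inverse T) fun w hw => by
    rw [← hD']
    refine gvn_forms hA hI.ne_zero (fun j hj => Or.inr (by_contra fun h => ?_)) hw
    obtain ⟨l, hl⟩ := Function.ne_iff.1 hI.ne_zero
    exact h ⟨Pi.single l 1, by simpa using hI.scale hj (prop_of h l).symm, by simpa using hl⟩
  obtain ⟨D₀, hD₀, ho⟩ := exists_proj (csp_closed (Gen A s)) D
  have key : ∀ t, s ≤ t → ∀ b ∈ G A t, ⟪D - D₀, b⟫_ℂ = 0 := by
    intro t ht
    induction ht with
    | refl => exact ho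
    | @step t ht ih =>
      refine fun b hb => G_orth (fun χ hχ => ?_) hb
      by_cases h : χ ∈ G A t
      · exact ih χ h
      rw [← inner_conj_symm, map_eq_zero, inner_sub_right, ← hD, orth_CC hA (hI.mono ht) T hχ h
        (prod_mem fun j hj => CC_mem hA (by
          rw [if_neg (ne_of_mem_erase hj)]
          exact G_mono (by omega) (h3 j (mem_univ _) (ne_of_mem_erase hj)))), zero_sub, neg_eq_zero]
      exact by_contra fun h0 => h ((G_SI t).dich hχ.2 (G_mono ht hD₀) h0)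
  have hDs : D ∈ G A s := by
    refine mem_of_null (csp_closed _) hD₀ ?_
    rw [norm_sub_rev]
    exact norm_eq_zero_of_inner (key _ (le_max_left s T) _
      (sub_mem (G_mono (le_max_right s T) hDT) (G_mono (le_max_left s T) hD₀)))
  simpa [hD', inner_def] using easy s _ (Nz_star hf) D hDs

end Pool.Agent.MP_3b3b41_nt

end
end

-- part MP_3b3b41_nt.Main
section

/-! The finitary true complexity theorem and its converse. -/

open Finset Filter Topology Polynomial
open scoped BigOperators ComplexConjugate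

set_option linter.unusedSectionVars false
set_option linter.unusedSimpArgs false
set_option linter.unusedVariables false

noncomputable section

namespace Pool.Agent.MP_3b3b41_nt

theorem clear_den {κ : Type} [Fintype κ] (c : κ → ℚ) :
    ∃ (N : ℤ) (a : κ → ℤ), N ≠ 0 ∧ ∀ x, (a x : ℚ) = N * c x := by
  obtain ⟨N, hN⟩ := IsLocalization.exist_integer_multiples_of_finite (nonZeroDivisors ℤ) c
  choose a ha using hN
  exact ⟨N, a, nonZeroDivisors.coe_ne_zero N, fun x => by simpa using ha x⟩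

variable {k d : ℕ} {Φ : Fin k → Fin d → ℤ} {i : Fin k} {s : ℕ}

/-- The tensor condition. -/
def InSpan (Φ : Fin k → Fin d → ℤ) (i : Fin k) (s : ℕ) : Prop :=
  (fun ω : Fin (s + 1) → Fin d => ∏ m, ((Φ i (ω m) : ℤ) : ℚ)) ∈
    Submodule.span ℚ (Set.range (fun j : {j : Fin k // j ≠ i} =>
      fun ω : Fin (s + 1) → Fin d => ∏ m, ((Φ j.1 (ω m) : ℤ) : ℚ)))

theorem ind_of (h : ¬InSpan Φ i s) : Ind Φ i (s + 1) := by
  obtain ⟨f, h1, h2⟩ := Submodule.exists_dual_map_eq_bot_of_notMem h inferInstance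
  obtain ⟨N, β, hN, hβ⟩ := clear_den fun a : Fin (s + 1) → Fin d => f (Pi.single a 1)
  have key : ∀ j, ((∑ a, β a * ∏ r, Φ j (a r) : ℤ) : ℚ) =
      N * f fun ω => ∏ m, ((Φ j (ω m) : ℤ) : ℚ) := fun j => by
    rw [LinearMap.pi_apply_eq_sum_univ, mul_sum]
    push_cast
    refine sum_congr rfl fun a _ => ?_
    rw [hβ, show (fun j => if a = j then (1 : ℚ) else 0) = Pi.single a 1 from
      funext fun b => by simp [Pi.single_apply, eq_comm], smul_eq_mul]
    ring
  refine ⟨β, fun h0 => ?_, fun j hj => ?_⟩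
  · have := key i
    rw [h0] at this
    exact mul_ne_zero (Int.cast_ne_zero.2 hN) h1 (by simpa using this.symm)
  · have h3 : (f fun ω => ∏ m, ((Φ j (ω m) : ℤ) : ℚ)) = 0 := by
      rw [← Submodule.mem_bot ℚ, ← h2]
      exact Submodule.mem_map_of_mem (Submodule.subset_span ⟨⟨j, hj⟩, rfl⟩)
    have := key j
    rw [h3, mul_zero] at this
    exact_mod_cast this

theorem dep_of (h : InSpan Φ i s) :
    ∃ b : Fin k → ℤ, b i ≠ 0 ∧ ∀ ω : Fin (s + 1) → Fin d, ∑ j, b j * ∏ m, Φ j (ω m) = 0 := by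
  obtain ⟨c, hc⟩ := (Submodule.mem_span_range_iff_exists_fun ℚ).1 h
  obtain ⟨N, a, hN, ha⟩ := clear_den c
  refine ⟨fun j => if h : j = i then -N else a ⟨j, h⟩, by simpa using hN, fun ω => ?_⟩
  have h1 := congrFun hc ω
  simp only [Finset.sum_apply, Pi.smul_apply, smul_eq_mul] at h1
  have h2 : ∑ j : {j : Fin k // j ≠ i}, a j * ∏ m, Φ j.1 (ω m) = N * ∏ m, Φ i (ω m) := by
    have : ((∑ j : {j : Fin k // j ≠ i}, a j * ∏ m, Φ j.1 (ω m) : ℤ) : ℚ) =
        ((N * ∏ m, Φ i (ω m) : ℤ) : ℚ) := by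
      push_cast
      simp only [← h1, mul_sum, ha, mul_assoc]
    exact_mod_cast this
  rw [Fintype.sum_eq_add_sum_subtype_ne _ i]
  beta_reduce
  rw [dif_pos rfl, neg_mul, ← h2, neg_add_eq_zero]
  exact sum_congr rfl fun j _ => by rw [dif_neg j.2]

theorem control (h : ¬InSpan Φ i s) {ε : ℝ} (hε : 0 < ε) : ∃ δ : ℝ, 0 < δ ∧ ∃ P : ℕ,
    ∀ (G : Type) [AddCommGroup G] [Fintype G], (∀ q : ℕ, q.Prime → q ∣ Fintype.card G → P ≤ q) →
      ∀ f : Fin k → G → ℂ, (∀ j x, ‖f j x‖ ≤ 1) → ‖Nf (s + 1) (f i)‖ ≤ δ →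
        ‖𝔼 x : Fin d → G, ∏ j, f j (∑ l, Φ j l • x l)‖ ≤ ε := by
  obtain ⟨T, rfl⟩ : ∃ T, k = T + 1 := Nat.exists_eq_succ_of_ne_zero i.pos.ne'
  by_contra hc
  push Not at hc
  choose A i1 i2 hA f hf h1 h2 using fun n : ℕ => hc (1 / ((n : ℝ) + 1)) (by positivity) n
  have hD : Dv A := fun m hm => by
    filter_upwards [U_le (eventually_gt_atTop m.natAbs)] with n hn
    have h3 : (Nat.card (A n)).Coprime m.natAbs := by
      rw [Nat.card_eq_fintype_card]
      refine Nat.coprime_of_dvd fun q hq h3 h4 => ?_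
      have := Nat.le_of_dvd (Int.natAbs_pos.2 hm) h4
      have := hA n q hq h3
      omega
    intro x
    obtain ⟨y, hy⟩ := h3.nsmul_right_bijective.2 x
    refine ⟨m.sign • y, ?_⟩
    simp only [smul_smul, Int.mul_sign_self, natCast_zsmul]
    exact hy
  have h3 := limit_main hD (ind_of h) (fun j => L.mk (fun n => f n j) 1 fun n => hf n j) (by
    refine squeeze_zero (fun n => Mf_nonneg _ _) (fun n => ?_)
      (tendsto_U tendsto_one_div_add_atTop_nhds_zero_nat)
    exact (Complex.re_le_norm _).trans (h1 n))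
  have h4 := tendsto_E (∏ j, comap (fun n => lf (Φ j) n)
    (L.mk (fun n => f n j) 1 fun n => hf n j : L A))
  rw [show E _ = 0 from h3] at h4
  have h5 := ge_of_tendsto' h4.norm fun n => by simpa [lf_apply] using (h2 n).le
  simp only [norm_zero] at h5
  linarith

theorem taylor_coeff' {R : Type*} [CommRing R] {q : R[X]} {n : ℕ} (h : q.natDegree ≤ n + 1) (a : R) :
    (q - taylor a q).coeff n = -((n + 1 : ℕ) * q.coeff (n + 1) * a) := by
  rw [coeff_sub, taylor_coeff, eval_eq_sum_range' (n := 2)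
    ((natDegree_hasseDeriv_le q n).trans_lt (by omega))]
  simp [sum_range_succ, hasseDeriv_coeff, add_comm 1 n]

theorem phase_le {p : ℕ} [Fact p.Prime] : ∀ (D : ℕ) (q : (ZMod p)[X]), D + 1 < p →
    q.natDegree ≤ D + 1 → q.coeff (D + 1) ≠ 0 →
    ‖Nf (D + 1) fun x => ZMod.stdAddChar (q.eval x)‖ ≤ D / p
  | 0, q, _, h1, h2 => by
    have : 𝔼 x, ZMod.stdAddChar (q.eval x) = 0 := by
      rw [eq_X_add_C_of_natDegree_le_one h1]
      simp only [eval_add, eval_mul, eval_C, eval_X, AddChar.map_add_eq_mul, ← expect_mul]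
      rw [Fintype.expect_eq_sum_div_card]
      simp only [mul_comm (q.coeff 1)]
      rw [AddChar.sum_mulShift _ (ZMod.isPrimitive_stdAddChar p), if_neg h2]
      simp
    simp [Nf_one, this]
  | D + 1, q, h0, h1, h2 => by
    have hp : (0 : ℝ) < p := Nat.cast_pos.2 (by omega)
    have h3 : ∀ a, ‖Nf (D + 1) (Df a fun x => ZMod.stdAddChar (q.eval x))‖ ≤
        D / p + if a = 0 then 1 else 0 := fun a => by
      have e : (Df a fun x => ZMod.stdAddChar (q.eval x)) =
          fun x => ZMod.stdAddChar ((q - taylor a q).eval x) := funext fun x => by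
        rw [Df, ← AddChar.map_neg_eq_conj, ← AddChar.map_add_eq_mul, eval_sub, taylor_eval,
          sub_eq_add_neg]
      rw [e]
      split_ifs with ha
      · refine le_add_of_nonneg_of_le (by positivity) (norm_expect_le_of fun z => ?_)
        simpa using norm_cube_le (C := 1) (fun x => by simp) z.1 z.2
      · rw [add_zero]
        refine phase_le D _ (by omega) (natDegree_le_iff_coeff_eq_zero.2 fun n hn => ?_) ?_
        · rw [taylor_coeff' (by omega), coeff_eq_zero_of_natDegree_lt (by omega)]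
          simp
        · rw [taylor_coeff' h1, neg_ne_zero]
          refine mul_ne_zero (mul_ne_zero (fun h => ?_) h2) ha
          exact (Nat.le_of_dvd (by omega) ((ZMod.natCast_eq_zero_iff _ _).1 h)).not_gt h0
    rw [Nf_succ]
    refine (RCLike.norm_expect_le (K := ℂ)).trans ((expect_le_expect fun a _ => h3 a).trans_eq ?_)
    rw [expect_add_distrib, Fintype.expect_const, Fintype.expect_eq_sum_div_card]
    simp [add_div]

theorem converse (h : InSpan Φ i s) {δ : ℝ} (hδ : 0 < δ) (P : ℕ) :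
    ∃ (p : ℕ) (_ : Fact p.Prime), P ≤ p ∧ ∃ f : Fin k → ZMod p → ℂ, (∀ j x, ‖f j x‖ ≤ 1) ∧
      ‖Nf (s + 1) (f i)‖ ≤ δ ∧ 𝔼 x : Fin d → ZMod p, ∏ j, f j (∑ l, Φ j l • x l) = 1 := by
  obtain ⟨b, hb, hr⟩ := dep_of h
  obtain ⟨p, hp, hp'⟩ := Nat.exists_infinite_primes (P + (b i).natAbs + s + 2 + ⌈s / δ⌉₊)
  have : Fact p.Prime := ⟨hp'⟩
  refine ⟨p, inferInstance, by omega, fun j x => ZMod.stdAddChar ((b j : ZMod p) * x ^ (s + 1)),
    fun j x => by simp, ?_, ?_⟩
  · have := phase_le s (C (b i : ZMod p) * X ^ (s + 1)) (by omega) (natDegree_C_mul_X_pow_le _ _) (by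
      rw [coeff_C_mul_X_pow, if_pos rfl, Ne, ZMod.intCast_zmod_eq_zero_iff_dvd, Int.natCast_dvd]
      exact fun h => (Nat.le_of_dvd (Int.natAbs_pos.2 hb) h).not_gt (by omega))
    simp only [eval_mul, eval_C, eval_pow, eval_X] at this
    refine this.trans ?_
    rw [div_le_comm₀ (Nat.cast_pos.2 hp'.pos) hδ]
    exact (Nat.le_ceil _).trans (Nat.cast_le.2 (by omega))
  · refine (expect_congr rfl fun x _ => ?_).trans (Fintype.expect_const _)
    have : ∑ j, (b j : ZMod p) * (∑ l, Φ j l • x l) ^ (s + 1) = 0 := by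
      simp only [Fintype.sum_pow, mul_sum, zsmul_eq_mul, prod_mul_distrib, ← mul_assoc]
      rw [sum_comm]
      refine sum_eq_zero fun ω _ => ?_
      rw [← sum_mul]
      have := congrArg (Int.cast : ℤ → ZMod p) (hr ω)
      push_cast at this
      rw [this, zero_mul]
    rw [← AddChar.map_zero_eq_one (ZMod.stdAddChar (N := p)), ← this]
    exact (map_prod (ZMod.stdAddChar (N := p)).toMonoidHom
      (fun j => Multiplicative.ofAdd ((b j : ZMod p) * (∑ l, Φ j l • x l) ^ (s + 1))) univ).symm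

end Pool.Agent.MP_3b3b41_nt

end
end
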